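import Pool.Agent.H918.S.SetThm2

/-!
The generalized Green-Griffiths-Lang conjecture for projective surfaces which are, up to a finite
unramified covering, fibred over an elliptic curve.
-/

set_option autoImplicit false

open Filter Topology FF Metric Pool.Agent.W602.GT Pool.Agent.N154.GG Pool.Agent.H918.SS
  Pool.Agent.H918.SP

/-- Let `X = {F = 0}` be an irreducible projective surface (which may be singular) of general type,
and let `X' = {F' = 0}` be a finite unramified covering of `X` with a holomorphic map `α` to an
elliptic curve `E = ℂ / L`, for example `X' = X`. Suppose that there is a finite set `B` of points of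
`E` such that `X'` has a semistable reduction which is unramified outside of the fibres over `B`
(`HasReduction`). By the theorems of Deligne and Mumford and of Arakelov, all smooth projective
surfaces of general type with a holomorphic map with connected fibres to an elliptic curve satisfy
this. The form `H` is not identically zero on `X`, and it is zero at the images of the points of the
fibres over `B`.

Then all conditions of the conjecture are true: the irreducible closed curves of geometric genus at
most one in `X` are finite in number, and their union is equal to all special subsets of `X`: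
`SpAlg` is given by the subvarieties of positive dimension which are not of general type, `SpP` by the
holomorphic maps from the punctured disc with essential singularities, `SpH` by the nonconstant entire
curves, `SpMer` by the meromorphic maps from the spaces `ℂ ^ g`, and `SpEll` by the maps from elliptic
curves; the special subset given by the rational maps from semi-abelian varieties is between the last
two. The Zariski closure of each entire curve, and of each punctured disc with an essential
singularity, is one of these curves of genus at most one. -/
theorem Pool.Agent.Results.MP_160ed4_ag.FibredSpecialSets.result {m n : ℕ} {ι ι' : Type}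
    (F : ι → MvPolynomial (Fin (n + 1)) ℂ) (K : Type) [Field K] [Algebra ℂ K]
    (y : Fin (n + 1) → K) (hX : ProjVariety F 2 y) (hK : GeneralType ℂ K 2)
    (F' : ι' → MvPolynomial (Fin (m + 1)) ℂ) (hF' : ∀ i, IsForm (F' i))
    (Q : Fin (n + 1) → MvPolynomial (Fin (m + 1)) ℂ) (hQ : EtaleCovering F F' Q) (L : PeriodPair)
    (α : (Fin (m + 1) → ℂ) → ℂ ⧸ L.lattice) (hα : HolToTorus (Cone F') L α)
    (B : Set (ℂ ⧸ L.lattice)) (hB : B.Finite) (hred : HasReduction F' α B)
    (H : MvPolynomial (Fin (n + 1)) ℂ) (hH : IsForm H) (hy : val y H ≠ 0)
    (hHB : ∀ u ∈ Cone F, (∃ b ∈ B, OverPoint F' α Q b u) → val u H = 0) :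
    (LowCurves F).Finite ∧ LowUnion F ≠ Cone F ∧ SpAlg F = LowUnion F ∧ SpP F = LowUnion F ∧
      SpH F = LowUnion F ∧ SpMer F = LowUnion F ∧ SpEll F = LowUnion F ∧
      (∀ f, EntireIn F f → EquationsOn (Set.range f) ∈ LowCurves F) ∧
      ∀ f, EssentialIn F f → EquationsOn (f '' (ball 0 1 \ {0})) ∈ LowCurves F := by
  obtain ⟨h1, G, h2, h3⟩ := surfV hX hK hF' hQ hα hB hred hH hy hHB
  have h6 := h1.toSpecialCore
  obtain ⟨h4, h5, -⟩ := closures hX h6
  exact ⟨by rw [lowCurves_eq hX]; exact h1.finite, low_ne hX h2 h3, spAlg_eq hX h1, spP_eq hX h6,
    spH_eq hX h6, spMer_eq hX h6, spEll_eq hX h6, h4, h5⟩
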