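import Pool.Agent.H915.TC.Un18
import Pool.Agent.H915.TC.Un19
import Pool.Agent.H915.TC.Lo22
import Pool.Agent.Results.MP_64ff02_ag.TwoPlaneCurves

/-!
MP_160ed4_ag, Q1: entire curves, and curves over the punctured disc, of finite order in the
complement of two curves in the projective plane.

Let `C_0 = {H 0 = 0}` and `C_1 = {H 1 = 0}` be smooth curves of degrees `d 0` and `d 1` in the
projective plane which intersect transversally (`Transversal`), `4 ≤ d 0 + d 1`, and
`X = P^2 - C_0 - C_1`, a smooth affine surface of log general type.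

(A) Assume that no image of a nonconstant morphism `G_m → X` is contained in a member of the pencil
spanned by `(H 0) ^ (d 1)` and `(H 1) ^ (d 0)` (`NoneInPencil`).

(A1) The system of equations `H 0 (F z) = 1`, `H 1 (F z) = exp z` has only finitely many entire
solutions `F_1, ..., F_N : ℂ → ℂ ^ 3`, and for each nonconstant polynomial `h`, and for each entire
function `h` with a logarithmic tract over infinity (`Tract`; for example `h = exp`), the entire
solutions of `H 0 (F z) = 1`, `H 1 (F z) = exp (h z)` are `F_j (h z)`.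

(A2) There is a finite set `S` of nonconstant morphisms `q : G_m → X` such that all nonconstant
entire curves of finite order in `X` are of the form `q (exp (p z))` with `q ∈ S` and a nonconstant
polynomial `p`; for the nonconstant curves with bounded derivative and for the curves `r (exp z)`,
`r : G_m → X` a nonconstant morphism, the polynomial `p` has degree one. All holomorphic maps
`f : D* → X` of the punctured unit disc which are of finite order at `0` and have an essential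
singularity at `0` (`EssentialCurve`) map `D*` to `q (G_m)` for some `q ∈ S`. All nonconstant entire
curves `f` in `X` with `H 1 (f) ^ (d 0) = exp h * H 0 (f) ^ (d 1)`, `h` a polynomial or an entire
function with a logarithmic tract over infinity, are of the form `q (exp (κ h (z) + γ))`, `q ∈ S`.

(A3) For a form `G` the following are equivalent: all closed subvarieties of positive dimension of
`X` that are not contained in `G = 0` are of log general type; all nonconstant entire curves of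
finite order in `X` are contained in `G = 0`; all holomorphic maps `D* → X` of finite order at `0`
with an essential singularity at `0` are contained in `G = 0`; `G` vanishes on the images of all
`q ∈ S`. There is such a form `G ≠ 0`.

(B) Let `C_0` be a line. If no curve `(H 1) = β (H 0) ^ (d 1)`, `β ≠ 0`, contains a line or a conic,
then the hypothesis of (A) is satisfied.

(C) Let `C_0` be a line and `C_1` a cubic and let no point of `C_0 ∩ C_1` be a flex of `C_1` (the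
Hessian determinant does not vanish). Then the hypothesis of (A) is satisfied, and the finite set of
(A1) is not empty; so the exceptional set is not empty, and it is a finite union of rational curves.

(D) Let `5 ≤ d 0 + d 1`. If each curve `H 0 = 1, H 1 = b`, `b ≠ 0`, has, up to factors, at most one
singular point, which is an ordinary node (`Morse`), then the hypothesis of (A) is satisfied.

(E) The equation `x y (x + y) + x + 2 y = exp z` has only finitely many solutions `(x_j, y_j)` in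
entire functions, and at least one; for each nonconstant polynomial `p`, the solutions of
`x y (x + y) + x + 2 y = exp (p z)` in entire functions are `(x_j (p z), y_j (p z))`.
-/

set_option autoImplicit false

namespace Pool.Agent.Results.MP_160ed4_ag.FiniteOrderCurves

open MvPolynomial Metric
open Pool.Agent.Results.MP_64ff02_ag.GenericPairsSpecialSet (OnPair Subvariety LogGT LogGTOutside)
open Pool.Agent.Results.MP_64ff02_ag.TwoPlaneCurves (Transversal BrodyCurve GmCurve)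

/-- No image of a nonconstant morphism from the multiplicative group to the complement of the two
curves is contained in a member `(H 1) ^ (d 0) = β (H 0) ^ (d 1)` of the pencil. -/
def NoneInPencil (H : Fin 2 → MvPolynomial (Fin (2 + 1)) ℂ) (d : Fin 2 → ℕ) : Prop :=
  ∀ (q : Fin (2 + 1) → Polynomial ℂ) (β : ℂ), GmCurve H q → ∃ t,
    eval (fun i => (q i).eval t) (H 1) ^ d 0 ≠ β * eval (fun i => (q i).eval t) (H 0) ^ d 1

/-- The solutions `(x, y)` of the equation `x y (x + y) + x + 2 y = exp (p z)` in entire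
functions. -/
def Sol (p : Polynomial ℂ) : Set ((ℂ → ℂ) × (ℂ → ℂ)) :=
  {u | Differentiable ℂ u.1 ∧ Differentiable ℂ u.2 ∧
    ∀ z, u.1 z * u.2 z * (u.1 z + u.2 z) + u.1 z + 2 * u.2 z = Complex.exp (p.eval z)}

/-- The minors of the Jacobian matrix of `H 0`, `H 1`. -/
noncomputable def jac (H : Fin 2 → MvPolynomial (Fin (2 + 1)) ℂ) (i j : Fin (2 + 1)) :
    MvPolynomial (Fin (2 + 1)) ℂ :=
  pderiv i (H 0) * pderiv j (H 1) - pderiv j (H 0) * pderiv i (H 1)

/-- Each of the curves `H 0 = 1`, `H 1 = b`, `b ≠ 0`, has, up to factors, at most one singular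
point; and there the derivatives of the minors of the Jacobian matrix vanish only in the direction
of the point. -/
def Morse (H : Fin 2 → MvPolynomial (Fin (2 + 1)) ℂ) : Prop :=
  ∀ x : Fin (2 + 1) → ℂ, eval x (H 0) = 1 → eval x (H 1) ≠ 0 →
    (∀ i j, eval x (jac H i j) = 0) →
    (∀ y : Fin (2 + 1) → ℂ, eval y (H 0) = 1 → eval y (H 1) = eval x (H 1) →
      (∀ i j, eval y (jac H i j) = 0) → ∀ i j, x i * y j = x j * y i) ∧
    ∀ v : Fin (2 + 1) → ℂ, (∀ i j, ∑ k, v k * eval x (pderiv k (jac H i j)) = 0) →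
      ∀ i j, v i * x j = v j * x i

/-- The curve `f` is `q ∘ exp`, up to an affine change of the variable. -/
def Factors (f : ℂ → Fin (2 + 1) → ℂ) (q : Fin (2 + 1) → Polynomial ℂ) : Prop :=
  ∃ κ γ : ℂ, κ ≠ 0 ∧ ∀ z, ∃ c : ℂ, c ≠ 0 ∧
    f z = c • fun i => (q i).eval (Complex.exp (κ * z + γ))

/-- The curve `f` is `q ∘ exp ∘ p` with a nonconstant polynomial `p`. -/
def FactorsPoly (f : ℂ → Fin (2 + 1) → ℂ) (q : Fin (2 + 1) → Polynomial ℂ) : Prop :=
  ∃ p : Polynomial ℂ, 0 < p.natDegree ∧ ∀ z, ∃ c : ℂ, c ≠ 0 ∧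
    f z = c • fun i => (q i).eval (Complex.exp (p.eval z))

/-- The curve with the homogeneous coordinates `f` is of finite order: it has homogeneous
coordinates which are entire functions of finite order. -/
def FiniteOrder (f : ℂ → Fin (2 + 1) → ℂ) : Prop :=
  ∃ (F : ℂ → Fin (2 + 1) → ℂ) (C : ℝ) (k : ℕ), Differentiable ℂ F ∧
    (∀ z, ‖F z‖ ≤ Real.exp (C * (1 + ‖z‖) ^ k)) ∧ ∀ z, ∃ c : ℂ, c ≠ 0 ∧ F z = c • f z

/-- The punctured unit disc. -/
def PDisc : Set ℂ := {z | 0 < ‖z‖ ∧ ‖z‖ < 1}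

/-- `f : D* → X` is a holomorphic map of the punctured unit disc to the complement `X` of the two
curves; it is of finite order at `0` (near `0` it has homogeneous coordinates `F` with
`‖F z‖ ≤ exp (C / ‖z‖ ^ k)`), and it has an essential singularity at `0` (it has no extension to a
holomorphic map from a disc to the projective plane). -/
def EssentialCurve (H : Fin 2 → MvPolynomial (Fin (2 + 1)) ℂ) (f : ℂ → Fin (2 + 1) → ℂ) : Prop :=
  DifferentiableOn ℂ f PDisc ∧ (∀ z ∈ PDisc, OnPair H ∅ (f z)) ∧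
    (∃ (F : ℂ → Fin (2 + 1) → ℂ) (r C : ℝ) (k : ℕ), 0 < r ∧ r ≤ 1 ∧
      DifferentiableOn ℂ F {z | 0 < ‖z‖ ∧ ‖z‖ < r} ∧ ∀ z : ℂ, 0 < ‖z‖ → ‖z‖ < r →
        ‖F z‖ ≤ Real.exp (C / ‖z‖ ^ k) ∧ ∃ c : ℂ, c ≠ 0 ∧ F z = c • f z) ∧
    ¬ ∃ (G : ℂ → Fin (2 + 1) → ℂ) (r : ℝ), 0 < r ∧ DifferentiableOn ℂ G (ball 0 r) ∧ G 0 ≠ 0 ∧
      ∀ z : ℂ, 0 < ‖z‖ → ‖z‖ < r → ∃ c : ℂ, c ≠ 0 ∧ f z = c • G z

/-- The function `h` has a logarithmic tract over infinity: there is a holomorphic map `Γ` from a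
right half-plane with `h (Γ z) = exp z`. -/
def Tract (h : ℂ → ℂ) : Prop := ∃ (R : ℝ) (Γ : ℂ → ℂ), DifferentiableOn ℂ Γ {z | R < z.re} ∧
  ∀ z : ℂ, R < z.re → h (Γ z) = Complex.exp z

/-- The point of the projective plane with the homogeneous coordinates `f z` is not constant. -/
def NonConst (f : ℂ → Fin (2 + 1) → ℂ) : Prop := ∃ z w i j, f z i * f w j ≠ f z j * f w i

/-- The entire solutions of the system `H 0 (F z) = 1`, `H 1 (F z) = exp z`. -/
def Solutions (H : Fin 2 → MvPolynomial (Fin (2 + 1)) ℂ) : Set (ℂ → Fin (2 + 1) → ℂ) :=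
  {F | Differentiable ℂ F ∧ ∀ z, eval (F z) (H 0) = 1 ∧ eval (F z) (H 1) = Complex.exp z}

open Pool.Agent.H915 Pool.Agent.Y190.OP Pool.Agent.N155

theorem fib {H : Fin 2 → MvPolynomial (Fin (2 + 1)) ℂ} {d : Fin 2 → ℕ} {e1 e2 : ℕ}
    (hS : SNC (H 0) (H 1) e1 e2) (hd0 : d 0 = e1 + 1) (hd1 : d 1 = e2 + 1)
    (h : NoneInPencil H d) : FibHyp (H 0) (H 1) := by
  refine fibHyp_of hS hd0 hd1 fun q hq β hβ h1 s t hs ht i j => ?_
  by_contra hij
  have hqX : ∀ t, t ≠ 0 → OnPair H ∅ fun i => (q i).eval t := fun t ht =>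
    onPair_iff.2 ⟨fun h3 => hq t ht 0 (by
      rw [h3]
      have := eval_smul' hS.h1 0 0
      rwa [smul_zero, zero_pow (Nat.succ_ne_zero _), zero_mul] at this), hq t ht 0, hq t ht 1⟩
  obtain ⟨t, ht⟩ := h q β ⟨hqX, s, t, i, j, hs, ht, hij⟩
  apply ht
  have := h1 t
  rw [hd0, hd1]
  exact this

theorem none_of {H : Fin 2 → MvPolynomial (Fin (2 + 1)) ℂ} {d : Fin 2 → ℕ} {e1 e2 : ℕ}
    (hd0 : d 0 = e1 + 1) (hd1 : d 1 = e2 + 1)
    (h : NoFlat H e1 e2) : NoneInPencil H d := by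
  rintro q β ⟨hqX, s, t, i, j, hs, ht, hij⟩
  by_contra hcon
  push Not at hcon
  rw [hd0, hd1] at hcon
  have hβ : β ≠ 0 := by
    rintro rfl
    have := hcon s
    rw [zero_mul] at this
    exact (onPair_iff.1 (hqX s hs)).2.2 (pow_eq_zero_iff (Nat.succ_ne_zero _) |>.1 this)
  refine hij (h q (fun t ht b => ?_) β hβ hcon s t hs ht i j)
  have h1 := (onPair_iff.1 (hqX t ht)).2
  fin_cases b
  · exact h1.1
  · exact h1.2

theorem good_gm {H : Fin 2 → MvPolynomial (Fin (2 + 1)) ℂ} {e1 e2 : ℕ}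
    (hS : SNC (H 0) (H 1) e1 e2) {q : Fin (2 + 1) → Polynomial ℂ}
    (hq : Good (H 0) (H 1) e1 e2 q) : GmCurve H q := by
  refine ⟨fun t ht => onPair_iff.2 (hq.ne t ht), ?_⟩
  by_contra hcon
  push Not at hcon
  obtain ⟨n, hn, h1⟩ := hq.dom
  obtain ⟨i, hi⟩ := Function.ne_iff.1 (hq.ne 1 one_ne_zero).1
  have hi' : (q i).eval 1 ≠ 0 := hi
  have hpar : ∀ t : ℂ, t ≠ 0 → pt q t = ((q i).eval t / (q i).eval 1) • pt q 1 := by
    intro t ht
    funext j
    have := hcon 1 t i j one_ne_zero ht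
    simp only [pt, Pi.smul_apply, smul_eq_mul]
    field_simp
    linear_combination this
  have hn' : (n : ℂ) ≠ 0 := Nat.cast_ne_zero.2 hn.ne'
  have hu : ∀ w : ℂ, Complex.exp (n * w) = 1 := by
    intro w
    have f1 := h1 w
    have f2 := h1 0
    obtain ⟨c, hc⟩ : ∃ c, c = (q i).eval (Complex.exp w) / (q i).eval 1 := ⟨_, rfl⟩
    have hw := hpar (Complex.exp w) (Complex.exp_ne_zero w)
    rw [← hc] at hw
    have hc0 : c ≠ 0 := by
      rintro rfl
      rw [zero_smul] at hw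
      exact (hq.ne _ (Complex.exp_ne_zero w)).1 hw
    rw [mul_zero, Complex.exp_zero, one_mul] at f2
    rw [hw, eval_smul' hS.h1, eval_smul' hS.h2, mul_pow, mul_pow, f2, ← pow_mul, ← pow_mul,
      mul_comm (e2 + 1), mul_left_comm, ← mul_assoc] at f1
    have h3 : c ^ ((e1 + 1) * (e2 + 1)) * eval (pt q 1) (H 0) ^ (e2 + 1) ≠ 0 :=
      mul_ne_zero (pow_ne_zero _ hc0) (pow_ne_zero _ (hq.ne 1 one_ne_zero).2.1)
    apply mul_left_cancel₀ h3
    rw [mul_one]
    linear_combination -f1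
  have h2 := hu (Complex.log 2 / n)
  rw [mul_div_cancel₀ _ hn', Complex.exp_log two_ne_zero] at h2
  norm_num at h2

/-- The polynomials in the exponential. -/
theorem main_exp {H : Fin 2 → MvPolynomial (Fin (2 + 1)) ℂ} {q : Fin (2 + 1) → Polynomial ℂ}
    (hq : GmCurve H q) :
    Differentiable ℂ (fun z => pt q (Complex.exp z)) ∧ FiniteOrder (fun z => pt q (Complex.exp z)) ∧
      (∀ z, OnPair H ∅ (pt q (Complex.exp z))) ∧ NonConst (fun z => pt q (Complex.exp z)) := by
  have hd : Differentiable ℂ (fun z => pt q (Complex.exp z)) :=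
    differentiable_pi.2 fun i => (q i).differentiable.comp Complex.differentiable_exp
  refine ⟨hd, ?_, fun z => hq.1 _ (Complex.exp_ne_zero z), ?_⟩
  · obtain ⟨C, hC⟩ := pt_growth q
    exact ⟨_, C, 1, hd, hC, fun z => ⟨1, one_ne_zero, (one_smul ℂ _).symm⟩⟩
  · obtain ⟨s, t, i, j, hs, ht, hst⟩ := hq.2
    refine ⟨Complex.log s, Complex.log t, i, j, ?_⟩
    simp only [pt]
    rw [Complex.exp_log hs, Complex.exp_log ht]
    exact hst

/-- The polynomials in `exp (1 / z)`. -/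
theorem main_inv {H : Fin 2 → MvPolynomial (Fin (2 + 1)) ℂ} {q : Fin (2 + 1) → Polynomial ℂ}
    (hq : GmCurve H q) : EssentialCurve H (fun z => pt q (Complex.exp z⁻¹)) := by
  have hd : ∀ z : ℂ, 0 < ‖z‖ → DifferentiableAt ℂ (fun z => pt q (Complex.exp z⁻¹)) z := by
    intro z hz
    refine differentiableAt_pi.2 fun i => ?_
    exact ((q i).differentiable _).comp z
      (Complex.differentiable_exp _ |>.comp z (differentiableAt_inv (norm_pos_iff.1 hz)))
  obtain ⟨C, hC⟩ := pt_growth_inv q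
  obtain ⟨s, t, i, j, hs, ht, hst⟩ := hq.2
  refine ⟨fun z hz => (hd z hz.1).differentiableWithinAt,
    fun z _ => hq.1 _ (Complex.exp_ne_zero _), ⟨fun z => pt q (Complex.exp z⁻¹), 1, C, 1, one_pos,
    le_rfl, fun z hz => (hd z hz.1).differentiableWithinAt, fun z hz hz1 =>
      ⟨hC z hz hz1, 1, one_ne_zero, (one_smul ℂ _).symm⟩⟩, ?_⟩
  exact not_ext hs ht hst

/-- **The main theorem for transversal pairs.** -/
theorem main {H : Fin 2 → MvPolynomial (Fin (2 + 1)) ℂ} {d : Fin 2 → ℕ} (hT : Transversal H d)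
    (hd : 4 ≤ d 0 + d 1) (hN : NoneInPencil H d) :
    ((Solutions H).Finite ∧
      (∀ p : Polynomial ℂ, 0 < p.natDegree → ∀ F : ℂ → Fin (2 + 1) → ℂ, Differentiable ℂ F →
        (∀ z, eval (F z) (H 0) = 1 ∧ eval (F z) (H 1) = Complex.exp (p.eval z)) →
        ∃ E ∈ Solutions H, ∀ z, F z = E (p.eval z)) ∧
      ∀ h : ℂ → ℂ, Differentiable ℂ h → Tract h → ∀ F : ℂ → Fin (2 + 1) → ℂ, Differentiable ℂ F →
        (∀ z, eval (F z) (H 0) = 1 ∧ eval (F z) (H 1) = Complex.exp (h z)) →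
        ∃ E ∈ Solutions H, ∀ z, F z = E (h z)) ∧
    ∃ S : Set (Fin (2 + 1) → Polynomial ℂ), S.Finite ∧ (∀ q ∈ S, GmCurve H q) ∧
      (∀ f, Differentiable ℂ f → (∀ z, OnPair H ∅ (f z)) → FiniteOrder f → NonConst f →
        ∃ q ∈ S, FactorsPoly f q) ∧
      (∀ f, BrodyCurve H f → NonConst f → ∃ q ∈ S, Factors f q) ∧
      (∀ p, GmCurve H p → ∃ q ∈ S, Factors (fun z i => (p i).eval (Complex.exp z)) q) ∧
      (∀ f, EssentialCurve H f → ∃ q ∈ S, ∀ z ∈ PDisc, ∃ t c : ℂ,
        t ≠ 0 ∧ c ≠ 0 ∧ f z = c • fun i => (q i).eval t) ∧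
      (∀ f, Differentiable ℂ f → (∀ z, OnPair H ∅ (f z)) → NonConst f →
        ∀ h : ℂ → ℂ, Differentiable ℂ h →
        (∀ z, eval (f z) (H 1) ^ d 0 = Complex.exp (h z) * eval (f z) (H 0) ^ d 1) →
        ((∃ p : Polynomial ℂ, ∀ z, h z = p.eval z) ∨ Tract h) →
        ∃ q ∈ S, ∃ κ γ : ℂ, κ ≠ 0 ∧ ∀ z, ∃ c : ℂ, c ≠ 0 ∧
          f z = c • fun i => (q i).eval (Complex.exp (κ * h z + γ))) ∧
      (∀ (G : MvPolynomial (Fin (2 + 1)) ℂ) (e : ℕ), G.IsHomogeneous e →
        (LogGTOutside H d ∅ G ↔ ∀ q ∈ S, ∀ t, eval (fun i => (q i).eval t) G = 0) ∧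
        (LogGTOutside H d ∅ G ↔ ∀ f, Differentiable ℂ f → (∀ z, OnPair H ∅ (f z)) →
          FiniteOrder f → NonConst f → ∀ z, eval (f z) G = 0) ∧
        (LogGTOutside H d ∅ G ↔ ∀ f, EssentialCurve H f → ∀ z ∈ PDisc, eval (f z) G = 0)) ∧
      ∃ (G : MvPolynomial (Fin (2 + 1)) ℂ) (e : ℕ), G ≠ 0 ∧ G.IsHomogeneous e ∧
        LogGTOutside H d ∅ G := by
  obtain ⟨e1, e2, he1, he2, hS⟩ := hT.snc
  have hF := fib hS he1 he2 hN
  have hk : 2 ≤ e1 + e2 := by omega
  obtain ⟨S, hSf, hSg, hSe, hSb⟩ := hS.list2 hk hF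
  have hGm := fun G e hG => ((Pool.Agent.Results.MP_64ff02_ag.TwoPlaneCurves.result H d).1 hT
    hd).1.2 G e hG
  -- the morphisms from the multiplicative group
  have hSp : ∀ p, GmCurve H p → ∃ q ∈ S, Factors (fun z i => (p i).eval (Complex.exp z)) q := by
    intro p hp
    have hX : ∀ t : ℂ, t ≠ 0 → pt p t ≠ 0 ∧ eval (pt p t) (H 0) ≠ 0 ∧ eval (pt p t) (H 1) ≠ 0 :=
      fun t ht => onPair_iff.1 (hp.1 t ht)
    rcases gm_alt e1 e2 p fun t ht => (hX t ht).2 with ⟨β, -, h1⟩ | h1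
    · exfalso
      obtain ⟨t, ht⟩ := hN p β hp
      apply ht
      have := h1 t
      rw [he1, he2]
      exact this
    · obtain ⟨a, b, ha, h2⟩ := h1
      have hdeg : (Polynomial.C a * Polynomial.X + Polynomial.C b).natDegree = 1 :=
        Polynomial.natDegree_linear ha
      obtain ⟨q, hq, κ, γ, hκ, h3⟩ := (hSe (fun z => pt p (Complex.exp z))
        (differentiable_pi.2 fun i => (p i).differentiable.comp Complex.differentiable_exp)
        (fun z => (hX _ (Complex.exp_ne_zero z)).1) (fun z => (hX _ (Complex.exp_ne_zero z)).2.1)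
        (Polynomial.C a * Polynomial.X + Polynomial.C b) (fun z => by
          rw [h2]
          simp)).2 (by rw [hdeg]; exact one_pos)
      refine ⟨q, hq, κ * a, κ * b + γ, mul_ne_zero hκ ha, fun z => ?_⟩
      obtain ⟨c, hc, h4⟩ := h3 z
      refine ⟨c, hc, ?_⟩
      have e : κ * (Polynomial.C a * Polynomial.X + Polynomial.C b).eval z + γ =
          κ * a * z + (κ * b + γ) := by
        simp
        ring
      rw [e] at h4
      exact h4
  have hiff : ∀ (G : MvPolynomial (Fin (2 + 1)) ℂ) (e : ℕ), G.IsHomogeneous e →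
      (LogGTOutside H d ∅ G ↔ ∀ q ∈ S, ∀ t, eval (fun i => (q i).eval t) G = 0) := by
    intro G e hG
    rw [hGm G e hG]
    constructor
    · intro h q hq
      exact h q (good_gm hS (hSg q hq))
    · intro h p hp
      obtain ⟨q, hq, κ, γ, hκ, h1⟩ := hSp p hp
      have h2 : aeval p G = (0 : Polynomial ℂ) := by
        apply poly_ext0
        intro t ht
        obtain ⟨c, hc, h3⟩ := h1 (Complex.log t⁻¹)
        simp only [Complex.exp_log (inv_ne_zero ht)] at h3
        rw [eval_pt, Polynomial.eval_zero]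
        have h4 : pt p t⁻¹ = c • pt q (Complex.exp (κ * Complex.log t⁻¹ + γ)) := h3
        rw [h4, eval_smul' hG]
        have h5 := h q hq (Complex.exp (κ * Complex.log t⁻¹ + γ))
        change c ^ e * eval (fun i => (q i).eval _) G = 0
        rw [h5, mul_zero]
      intro t
      have h3 := eval_pt G p t
      rw [h2, Polynomial.eval_zero] at h3
      exact h3.symm
  -- the curves of finite order
  have hSo : ∀ f, Differentiable ℂ f → (∀ z, OnPair H ∅ (f z)) → FiniteOrder f → NonConst f →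
        ∃ q ∈ S, FactorsPoly f q := by
    rintro f hf hX ⟨F, C, k, hFd, hb, hFf⟩ ⟨z1, w1, i, j, hne⟩
    have hFX : ∀ z, F z ≠ 0 ∧ eval (F z) (H 0) ≠ 0 ∧ eval (F z) (H 1) ≠ 0 := by
      intro z
      obtain ⟨c, hc, h1⟩ := hFf z
      have h2 := onPair_iff.1 (hX z)
      rw [h1, eval_smul' hS.h1, eval_smul' hS.h2]
      exact ⟨smul_ne_zero hc h2.1, mul_ne_zero (pow_ne_zero _ hc) h2.2.1,
        mul_ne_zero (pow_ne_zero _ hc) h2.2.2⟩
    obtain ⟨p, hp⟩ := ratio_poly hS hFd (fun z => (hFX z).1) (fun z => (hFX z).2.1)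
      (fun z => (hFX z).2.2) hb
    obtain ⟨h1, h2⟩ := hSe F hFd (fun z => (hFX z).1) (fun z => (hFX z).2.1) p hp
    rcases Nat.eq_zero_or_pos p.natDegree with h3 | h3
    · exfalso
      apply hne
      have h4 := (Phi_eq_iff (hFX z1).1 (hFX w1).1).1 (h1 h3 z1 w1) i j
      obtain ⟨c1, hc1, h5⟩ := hFf z1
      obtain ⟨c2, hc2, h6⟩ := hFf w1
      rw [h5, h6] at h4
      simp only [Pi.smul_apply, smul_eq_mul] at h4
      have h7 : c1 * c2 ≠ 0 := mul_ne_zero hc1 hc2
      apply mul_left_cancel₀ h7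
      linear_combination h4
    · obtain ⟨q, hq, hR⟩ := h2 h3
      obtain ⟨r, hr, h4⟩ := hR.poly h3
      refine ⟨q, hq, r, hr, fun z => ?_⟩
      obtain ⟨c, hc, h5⟩ := h4 z
      obtain ⟨c', hc', h6⟩ := hFf z
      refine ⟨c'⁻¹ * c, mul_ne_zero (inv_ne_zero hc') hc, ?_⟩
      change f z = (c'⁻¹ * c) • pt q (Complex.exp (r.eval z))
      rw [mul_smul, ← h5, h6, smul_smul, inv_mul_cancel₀ hc', one_smul]
  -- the solutions and the finite list
  have hn1 : ((e1 + 1 : ℕ) : ℂ) ≠ 0 := Nat.cast_ne_zero.2 (Nat.succ_ne_zero e1)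
  have hSE : ∀ E : ℂ → V, NC (H 0) (H 1) E → ∃ q ∈ S, ∃ κ γ : ℂ, κ ≠ 0 ∧ ∀ t, ∃ c : ℂ, c ≠ 0 ∧
      E t = c • pt q (Complex.exp (κ * t + γ)) := by
    intro E hE
    have hdeg : (Polynomial.C (((e1 + 1 : ℕ) : ℂ)) * Polynomial.X).natDegree = 1 :=
      Polynomial.natDegree_C_mul_X _ hn1
    obtain ⟨q, hq, κ, γ, hκ, h3⟩ := (hSe E hE.dif (fun z => hE.ne hS.h1 z)
      (fun z => by rw [hE.v1]; exact one_ne_zero)
      (Polynomial.C (((e1 + 1 : ℕ) : ℂ)) * Polynomial.X) (fun z => by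
        rw [hE.v1, hE.v2, one_pow, mul_one, ← Complex.exp_nat_mul]
        simp)).2 (by rw [hdeg]; exact one_pos)
    refine ⟨q, hq, κ * ((e1 + 1 : ℕ) : ℂ), γ, mul_ne_zero hκ hn1, fun t => ?_⟩
    obtain ⟨c, hc, h4⟩ := h3 t
    refine ⟨c, hc, ?_⟩
    rw [h4, Polynomial.eval_mul, Polynomial.eval_C, Polynomial.eval_X, mul_assoc]
  -- the curves over the punctured disc
  have hSd : ∀ f, EssentialCurve H f → ∃ q ∈ S, ∀ z ∈ PDisc, ∃ t c : ℂ,
        t ≠ 0 ∧ c ≠ 0 ∧ f z = c • fun i => (q i).eval t := by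
    rintro f ⟨hf, hX, ⟨F, r, C, k, hr, hr1, hFd, hFb⟩, hess⟩
    obtain ⟨E, hE, hEf⟩ : ∃ E : ℂ → V, NC (H 0) (H 1) E ∧
        ∀ z ∈ Pd 1, ∃ t c : ℂ, c ≠ 0 ∧ f z = c • E t :=
      (hS.punct (F := f) (G := F) (r := 1) (ρ := r) (C := C) (k := k) hk hF one_pos hf
        (fun z hz => (onPair_iff.1 (hX z hz)).1) (fun z hz => (onPair_iff.1 (hX z hz)).2.1)
        (fun z hz => (onPair_iff.1 (hX z hz)).2.2) hr hr1 hFd (fun z hz => (hFb z hz.1 hz.2).2)
        (fun z hz => (hFb z hz.1 hz.2).1)).resolve_left hess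
    obtain ⟨q, hq, κ, γ, hκ, h3⟩ := hSE E hE
    refine ⟨q, hq, fun z hz => ?_⟩
    obtain ⟨t, c, hc, h4⟩ := hEf z hz
    obtain ⟨c', hc', h5⟩ := h3 t
    refine ⟨Complex.exp (κ * t + γ), c * c', Complex.exp_ne_zero _, mul_ne_zero hc hc', ?_⟩
    rw [h4, h5, smul_smul]
    rfl
  -- the curves with a tract
  have hSh : ∀ f, Differentiable ℂ f → (∀ z, OnPair H ∅ (f z)) → NonConst f →
        ∀ h : ℂ → ℂ, Differentiable ℂ h →
        (∀ z, eval (f z) (H 1) ^ d 0 = Complex.exp (h z) * eval (f z) (H 0) ^ d 1) →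
        ((∃ p : Polynomial ℂ, ∀ z, h z = p.eval z) ∨ Tract h) →
        ∃ q ∈ S, ∃ κ γ : ℂ, κ ≠ 0 ∧ ∀ z, ∃ c : ℂ, c ≠ 0 ∧
          f z = c • fun i => (q i).eval (Complex.exp (κ * h z + γ)) := by
    rintro f hf hX ⟨z1, w1, i, j, hne⟩ h hd h2 hh
    rw [he1, he2] at h2
    have hfX := fun z => onPair_iff.1 (hX z)
    rcases hh with ⟨p, hp⟩ | hT
    · have h3 := hSe f hf (fun z => (hfX z).1) (fun z => (hfX z).2.1) p
        (fun z => by rw [← hp]; exact h2 z)
      rcases Nat.eq_zero_or_pos p.natDegree with h4 | h4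
      · exact absurd ((Phi_eq_iff (hfX z1).1 (hfX w1).1).1 (h3.1 h4 z1 w1) i j) hne
      · obtain ⟨q, hq, κ, γ, hκ, h5⟩ := h3.2 h4
        refine ⟨q, hq, κ, γ, hκ, fun z => ?_⟩
        obtain ⟨c, hc, h6⟩ := h5 z
        exact ⟨c, hc, by rw [hp]; exact h6⟩
    · obtain ⟨F, δ, hFd, hF1, hF2, hFc⟩ := exists_HF hS hf (fun z => (hfX z).1)
        (fun z => (hfX z).2.1) hd h2
      obtain ⟨E, hE, hFE⟩ := hS.factorT hk hF hFd hF1 ((hd.div_const _).add_const _)
        (H915.Tract.affine hT hn1) hF2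
      obtain ⟨q, hq, κ, γ, hκ, h3⟩ := hSE E hE
      refine ⟨q, hq, κ / ((e1 + 1 : ℕ) : ℂ), κ * δ + γ, div_ne_zero hκ hn1, fun z => ?_⟩
      obtain ⟨c, hc, h4⟩ := hFc z
      obtain ⟨c', hc', h5⟩ := h3 (h z / ((e1 + 1 : ℕ) : ℂ) + δ)
      refine ⟨c * c', mul_ne_zero hc hc', ?_⟩
      rw [h4, hFE, h5, smul_smul]
      have e : κ * (h z / ((e1 + 1 : ℕ) : ℂ) + δ) + γ =
          κ / ((e1 + 1 : ℕ) : ℂ) * h z + (κ * δ + γ) := by ring
      rw [e]
      rfl
  refine ⟨⟨?_, fun p hp F hFd hF2 => ?_, fun h hd hT F hFd hF2 => ?_⟩, S, hSf,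
    fun q hq => good_gm hS (hSg q hq), hSo,
    fun f hf hnc => ?_, hSp, hSd, hSh, fun G e hG => ⟨hiff G e hG, ?_, ?_⟩, ?_⟩
  · refine (hS.finite hk hF).subset ?_
    rintro F ⟨h1, h2⟩
    exact ⟨h1, fun z => (h2 z).1, fun z => (h2 z).2⟩
  · obtain ⟨E, hE, hFE⟩ := hS.factor hk hF hFd (fun z => (hF2 z).1) hp (fun z => (hF2 z).2)
    exact ⟨E, ⟨hE.dif, fun z => ⟨hE.v1 z, hE.v2 z⟩⟩, hFE⟩
  · obtain ⟨E, hE, hFE⟩ := hS.factorT hk hF hFd (fun z => (hF2 z).1) hd hT (fun z => (hF2 z).2)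
    exact ⟨E, ⟨hE.dif, fun z => ⟨hE.v1 z, hE.v2 z⟩⟩, hFE⟩
  · obtain ⟨K, F, g, hEC, -, hFf⟩ := hf.lift hS
    obtain ⟨q, hq, hRep⟩ := hSb F K g hEC (by
      by_contra hcon
      push Not at hcon
      obtain ⟨z1, w1, i, j, hne⟩ := hnc
      apply hne
      obtain ⟨c1, hc1, h3⟩ := hFf z1
      obtain ⟨c2, hc2, h4⟩ := hFf w1
      have h5 := (Phi_eq_iff (hEC.ne z1) (hEC.ne w1)).1 ((hcon z1).trans (hcon w1).symm) i j
      rw [h3, h4]
      simp only [Pi.smul_apply, smul_eq_mul]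
      linear_combination c1 * c2 * h5)
    refine ⟨q, hq, hRep.of_aff one_ne_zero (γ := 0) fun z => ?_⟩
    rw [one_mul, add_zero]
    exact hFf z
  · rw [hiff G e hG]
    constructor
    · intro h f hf hX hfo hnc z
      obtain ⟨q, hq, p, hp, h1⟩ := hSo f hf hX hfo hnc
      obtain ⟨c, hc, h2⟩ := h1 z
      rw [h2, eval_smul' hG, h q hq, mul_zero]
    · intro h q hq t
      obtain ⟨k1, k2, k3, k4⟩ := main_exp (good_gm hS (hSg q hq))
      have h1 := h _ k1 k3 k2 k4
      have h2 : aeval q G = (0 : Polynomial ℂ) := by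
        apply poly_ext0
        intro t ht
        have h3 := h1 (Complex.log t⁻¹)
        rw [Complex.exp_log (inv_ne_zero ht)] at h3
        rw [eval_pt, Polynomial.eval_zero]
        exact h3
      have h3 := eval_pt G q t
      rw [h2, Polynomial.eval_zero] at h3
      exact h3.symm
  · rw [hiff G e hG]
    constructor
    · intro h f hf z hz
      obtain ⟨q, hq, h1⟩ := hSd f hf
      obtain ⟨t, c, ht, hc, h2⟩ := h1 z hz
      rw [h2, eval_smul' hG, h q hq, mul_zero]
    · intro h q hq t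
      have h1 := h _ (main_inv (good_gm hS (hSg q hq)))
      have h2 : aeval q G = (0 : Polynomial ℂ) := by
        apply poly_ext0
        intro t ht
        obtain ⟨z, hz, -⟩ := exists_inv_exp (Complex.log t⁻¹) 1 one_ne_zero
        obtain ⟨a1, a2, a3⟩ := hz 0
        rw [norm_one] at a3
        have h3 : eval (pt q (Complex.exp (z 0)⁻¹)) G = 0 := h1 (z 0) ⟨norm_pos_iff.2 a1, a3⟩
        rw [a2, Complex.exp_log (inv_ne_zero ht)] at h3
        rw [eval_pt, Polynomial.eval_zero]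
        exact h3
      have h3 := eval_pt G q t
      rw [h2, Polynomial.eval_zero] at h3
      exact h3.symm
  · obtain ⟨G, D, h1, h2, h3⟩ := exists_rels hSf
    exact ⟨G, D, h1, h2, (hiff G D h2).2 h3⟩

theorem jac_zero {H : Fin 2 → MvPolynomial (Fin (2 + 1)) ℂ} {x : Fin (2 + 1) → ℂ}
    (h : nv (H 0) (H 1) x = 0) (i j : Fin (2 + 1)) : eval x (jac H i j) = 0 := by
  have c0 : grad (H 0) x 1 * grad (H 1) x 2 - grad (H 0) x 2 * grad (H 1) x 1 = 0 := congrFun h 0
  have c1 : grad (H 0) x 2 * grad (H 1) x 0 - grad (H 0) x 0 * grad (H 1) x 2 = 0 := congrFun h 1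
  have c2 : grad (H 0) x 0 * grad (H 1) x 1 - grad (H 0) x 1 * grad (H 1) x 0 = 0 := congrFun h 2
  have e : eval x (jac H i j) = grad (H 0) x i * grad (H 1) x j - grad (H 0) x j * grad (H 1) x i := by
    rw [jac, map_sub, map_mul, map_mul]
    rfl
  rw [e]
  fin_cases i <;> fin_cases j <;> simp only [Fin.zero_eta, Fin.mk_one, Fin.reduceFinMk]
  · ring
  · linear_combination c2
  · linear_combination -c1
  · linear_combination -c2
  · ring
  · linear_combination c0
  · linear_combination c1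
  · linear_combination -c0
  · ring

theorem nodal_of {H : Fin 2 → MvPolynomial (Fin (2 + 1)) ℂ} (hM : Morse H) {b : ℂ} (hb : b ≠ 0) :
    Nodal (H 0) (H 1) 1 b := by
  intro x hx h0 h1 hn
  obtain ⟨m1, m2⟩ := hM x h0 (by rw [h1]; exact hb) (jac_zero hn)
  constructor
  · intro y hy k0 k1 kn
    have h2 := m1 y k0 (by rw [k1, h1]) (jac_zero kn)
    apply v_ext
    · rw [cr_0, h2 1 2, Pi.zero_apply]
      ring
    · rw [cr_1, h2 2 0, Pi.zero_apply]
      ring
    · rw [cr_2, h2 0 1, Pi.zero_apply]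
      ring
  · intro v hv
    rw [fderiv_nv] at hv
    have c0 : (DG (H 0) x v 1 * grad (H 1) x 2 - DG (H 0) x v 2 * grad (H 1) x 1) +
        (grad (H 0) x 1 * DG (H 1) x v 2 - grad (H 0) x 2 * DG (H 1) x v 1) = 0 := congrFun hv 0
    have c1 : (DG (H 0) x v 2 * grad (H 1) x 0 - DG (H 0) x v 0 * grad (H 1) x 2) +
        (grad (H 0) x 2 * DG (H 1) x v 0 - grad (H 0) x 0 * DG (H 1) x v 2) = 0 := congrFun hv 1
    have c2 : (DG (H 0) x v 0 * grad (H 1) x 1 - DG (H 0) x v 1 * grad (H 1) x 0) +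
        (grad (H 0) x 0 * DG (H 1) x v 1 - grad (H 0) x 1 * DG (H 1) x v 0) = 0 := congrFun hv 2
    have h2 := m2 v (fun i j => by
      have e : ∑ k, v k * eval x (pderiv k (jac H i j)) =
          (DG (H 0) x v i * grad (H 1) x j - DG (H 0) x v j * grad (H 1) x i) +
          (grad (H 0) x i * DG (H 1) x v j - grad (H 0) x j * DG (H 1) x v i) := by
        simp only [jac, map_sub, pderiv_mul, map_add, map_mul, DG, H915.dp, grad,
          Fin.sum_univ_three]
        ring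
      rw [e]
      fin_cases i <;> fin_cases j <;> simp only [Fin.zero_eta, Fin.mk_one, Fin.reduceFinMk]
      · ring
      · linear_combination c2
      · linear_combination -c1
      · linear_combination -c2
      · ring
      · linear_combination c0
      · linear_combination c1
      · linear_combination -c0
      · ring)
    apply v_ext
    · rw [cr_0, h2 1 2, Pi.zero_apply]
      ring
    · rw [cr_1, h2 2 0, Pi.zero_apply]
      ring
    · rw [cr_2, h2 0 1, Pi.zero_apply]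
      ring

/-- the example -/
noncomputable def exH : Fin 2 → MvPolynomial (Fin (2 + 1)) ℂ :=
  ![X 2, X 0 * X 1 * (X 0 + X 1) + (X 0 + 2 * X 1) * X 2 ^ 2]

theorem ex0 (x : Fin (2 + 1) → ℂ) : eval x (exH 0) = x 2 := by
  simp [exH]

theorem ex1 (x : Fin (2 + 1) → ℂ) :
    eval x (exH 1) = x 0 * x 1 * (x 0 + x 1) + (x 0 + 2 * x 1) * x 2 ^ 2 := by
  simp [exH]

theorem exp0 : pderiv 0 (exH 1) = 2 * X 0 * X 1 + X 1 ^ 2 + X 2 ^ 2 := by
  have h1 : pderiv (0 : Fin 3) (X 1 : MvPolynomial (Fin 3) ℂ) = 0 := pderiv_X_of_ne (by decide)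
  have h2 : pderiv (0 : Fin 3) (X 2 : MvPolynomial (Fin 3) ℂ) = 0 := pderiv_X_of_ne (by decide)
  have h3 : pderiv (0 : Fin 3) (2 : MvPolynomial (Fin 3) ℂ) = 0 := pderiv_C (a := (2 : ℂ))
  simp only [exH, Matrix.cons_val_one, Matrix.cons_val_zero, map_add, pderiv_mul, pderiv_pow, pderiv_X_self, h1, h2, h3]
  ring

theorem exp1 : pderiv 1 (exH 1) = X 0 ^ 2 + 2 * X 0 * X 1 + 2 * X 2 ^ 2 := by
  have h1 : pderiv (1 : Fin 3) (X 0 : MvPolynomial (Fin 3) ℂ) = 0 := pderiv_X_of_ne (by decide)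
  have h2 : pderiv (1 : Fin 3) (X 2 : MvPolynomial (Fin 3) ℂ) = 0 := pderiv_X_of_ne (by decide)
  have h3 : pderiv (1 : Fin 3) (2 : MvPolynomial (Fin 3) ℂ) = 0 := pderiv_C (a := (2 : ℂ))
  simp only [exH, Matrix.cons_val_one, Matrix.cons_val_zero, map_add, pderiv_mul, pderiv_pow, pderiv_X_self, h1, h2, h3]
  ring

theorem exp2 : pderiv 2 (exH 1) = 2 * (X 0 + 2 * X 1) * X 2 := by
  have h1 : pderiv (2 : Fin 3) (X 0 : MvPolynomial (Fin 3) ℂ) = 0 := pderiv_X_of_ne (by decide)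
  have h2 : pderiv (2 : Fin 3) (X 1 : MvPolynomial (Fin 3) ℂ) = 0 := pderiv_X_of_ne (by decide)
  have h3 : pderiv (2 : Fin 3) (2 : MvPolynomial (Fin 3) ℂ) = 0 := pderiv_C (a := (2 : ℂ))
  simp only [exH, Matrix.cons_val_one, Matrix.cons_val_zero, map_add, pderiv_mul, pderiv_pow, pderiv_X_self, h1, h2, h3]
  ring

theorem ex_sing {x : Fin (2 + 1) → ℂ} (h0 : eval x (pderiv 0 (exH 1)) = 0)
    (h1 : eval x (pderiv 1 (exH 1)) = 0) (h2 : x 2 = 0) : x = 0 := by
  rw [exp0] at h0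
  rw [exp1] at h1
  simp only [map_add, map_mul, map_pow, eval_X, map_ofNat, h2] at h0 h1
  have h3 : x 0 = 0 := by
    have : x 0 ^ 3 = 0 := by
      linear_combination x 0 * h1 - 2 / 3 * (2 * x 0 * h0 - x 1 * h1)
    exact pow_eq_zero_iff (three_ne_zero) |>.1 this
  have h4 : x 1 = 0 := by
    have : x 1 ^ 3 = 0 := by
      linear_combination x 1 * h0 - 2 / 3 * (2 * x 1 * h1 - x 0 * h0)
    exact pow_eq_zero_iff (three_ne_zero) |>.1 this
  exact v_ext h3 h4 h2

theorem ex_transversal : Transversal exH ![1, 3] := by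
  have hd0 : ∀ x i, eval x (pderiv i (exH 0)) = if i = 2 then 1 else 0 := by
    intro x i
    change eval x (pderiv i (X 2 : MvPolynomial (Fin 3) ℂ)) = _
    by_cases h : i = 2
    · rw [h, pderiv_X_self, if_pos rfl, map_one]
    · rw [pderiv_X_of_ne (Ne.symm h), if_neg h, map_zero]
  refine ⟨fun a => ?_, fun a => ?_, fun a x hx h0 => ?_, fun x hx h0 h1 => ?_⟩
  · fin_cases a <;> simp
  · fin_cases a
    · exact isHomogeneous_X ℂ 2
    · change (X 0 * X 1 * (X 0 + X 1) + (X 0 + 2 * X 1) * X 2 ^ 2 :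
        MvPolynomial (Fin 3) ℂ).IsHomogeneous 3
      have hX : ∀ i : Fin 3, (X i : MvPolynomial (Fin 3) ℂ).IsHomogeneous 1 := isHomogeneous_X ℂ
      have h2 : (2 * X 1 : MvPolynomial (Fin 3) ℂ).IsHomogeneous 1 := by
        have := (isHomogeneous_C (Fin 3) (2 : ℂ)).mul (hX 1)
        rwa [zero_add] at this
      exact (((hX 0).mul (hX 1)).mul ((hX 0).add (hX 1))).add
        (((hX 0).add h2).mul ((hX 2).pow 2))
  · fin_cases a
    · refine ⟨2, ?_⟩
      change eval x (pderiv 2 (exH 0)) ≠ 0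
      rw [hd0, if_pos rfl]
      exact one_ne_zero
    · by_contra hcon
      push Not at hcon
      have e0 : eval x (pderiv 0 (exH 1)) = 0 := hcon 0
      have e1 : eval x (pderiv 1 (exH 1)) = 0 := hcon 1
      have e2 : eval x (pderiv 2 (exH 1)) = 0 := hcon 2
      apply hx
      apply ex_sing e0 e1
      rw [exp0] at e0
      rw [exp1] at e1
      rw [exp2] at e2
      simp only [map_add, map_mul, map_pow, eval_X, map_ofNat] at e0 e1 e2
      by_contra hz
      have h3 : x 0 + 2 * x 1 = 0 := by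
        have := (mul_eq_zero.1 e2).resolve_right hz
        exact (mul_eq_zero.1 this).resolve_left two_ne_zero
      apply hz
      have : x 2 ^ 2 = 0 := by
        linear_combination e1 / 2 - x 0 / 2 * h3
      exact pow_eq_zero_iff (two_ne_zero) |>.1 this
  · by_contra hcon
    push Not at hcon
    apply hx
    have h2 : x 2 = 0 := by rwa [ex0] at h0
    refine ex_sing ?_ ?_ h2
    · have := hcon 2 0
      rw [hd0, hd0, if_pos rfl, if_neg (by decide), one_mul, zero_mul] at this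
      exact this
    · have := hcon 2 1
      rw [hd0, hd0, if_pos rfl, if_neg (by decide), one_mul, zero_mul] at this
      exact this

theorem ex_hess {x : Fin (2 + 1) → ℂ} (hx : x ≠ 0) (h0 : eval x (exH 0) = 0)
    (h1 : eval x (exH 1) = 0) :
    (Matrix.of fun i j => eval x (pderiv i (pderiv j (exH 1)))).det ≠ 0 := by
  have h2 : x 2 = 0 := by rwa [ex0] at h0
  rw [ex1, h2] at h1
  have a1 : pderiv (0 : Fin 3) (X 1 : MvPolynomial (Fin 3) ℂ) = 0 := pderiv_X_of_ne (by decide)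
  have a2 : pderiv (0 : Fin 3) (X 2 : MvPolynomial (Fin 3) ℂ) = 0 := pderiv_X_of_ne (by decide)
  have a3 : pderiv (0 : Fin 3) (2 : MvPolynomial (Fin 3) ℂ) = 0 := pderiv_C (a := (2 : ℂ))
  have b1 : pderiv (1 : Fin 3) (X 0 : MvPolynomial (Fin 3) ℂ) = 0 := pderiv_X_of_ne (by decide)
  have b2 : pderiv (1 : Fin 3) (X 2 : MvPolynomial (Fin 3) ℂ) = 0 := pderiv_X_of_ne (by decide)
  have b3 : pderiv (1 : Fin 3) (2 : MvPolynomial (Fin 3) ℂ) = 0 := pderiv_C (a := (2 : ℂ))
  have c1 : pderiv (2 : Fin 3) (X 0 : MvPolynomial (Fin 3) ℂ) = 0 := pderiv_X_of_ne (by decide)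
  have c2 : pderiv (2 : Fin 3) (X 1 : MvPolynomial (Fin 3) ℂ) = 0 := pderiv_X_of_ne (by decide)
  have c3 : pderiv (2 : Fin 3) (2 : MvPolynomial (Fin 3) ℂ) = 0 := pderiv_C (a := (2 : ℂ))
  have h3 : (Matrix.of fun i j => eval x (pderiv i (pderiv j (exH 1)))).det =
      -8 * (x 0 ^ 2 + x 0 * x 1 + x 1 ^ 2) * (x 0 + 2 * x 1) := by
    rw [Matrix.det_fin_three]
    simp only [Matrix.of_apply, exp0, exp1, exp2, map_add, pderiv_mul, pderiv_pow, pderiv_X_self,
      a1, a2, a3, b1, b2, b3, c1, c2, c3, map_mul, map_pow, eval_X, map_ofNat, h2, map_zero,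
      map_one, map_natCast]
    ring
  rw [h3]
  intro h4
  have h5 : x 0 * x 1 * (x 0 + x 1) = 0 := by linear_combination h1
  apply hx
  rcases mul_eq_zero.1 h5 with h6 | h6
  · rcases mul_eq_zero.1 h6 with h7 | h7
    · have : x 1 ^ 3 = 0 := by
        rw [h7] at h4
        linear_combination -h4 / 16
      exact v_ext h7 (pow_eq_zero_iff (three_ne_zero) |>.1 this) h2
    · have : x 0 ^ 3 = 0 := by
        rw [h7] at h4
        linear_combination -h4 / 8
      exact v_ext (pow_eq_zero_iff (three_ne_zero) |>.1 this) h7 h2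
  · have h7 : x 0 = -x 1 := by linear_combination h6
    have : x 1 ^ 3 = 0 := by
      rw [h7] at h4
      linear_combination -h4 / 8
    have h8 := pow_eq_zero_iff (three_ne_zero) |>.1 this
    rw [h8, neg_zero] at h7
    exact v_ext h7 h8 h2

/-- **Entire curves of finite order in the complement of two curves.** -/
theorem result :
    (∀ (H : Fin 2 → MvPolynomial (Fin (2 + 1)) ℂ) (d : Fin 2 → ℕ), Transversal H d →
      -- (A) no images of the multiplicative group in the members of the pencil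
      (4 ≤ d 0 + d 1 → NoneInPencil H d →
        -- (A1)
        ((Solutions H).Finite ∧
          (∀ p : Polynomial ℂ, 0 < p.natDegree → ∀ F : ℂ → Fin (2 + 1) → ℂ, Differentiable ℂ F →
            (∀ z, eval (F z) (H 0) = 1 ∧ eval (F z) (H 1) = Complex.exp (p.eval z)) →
            ∃ E ∈ Solutions H, ∀ z, F z = E (p.eval z)) ∧
          ∀ h : ℂ → ℂ, Differentiable ℂ h → Tract h →
            ∀ F : ℂ → Fin (2 + 1) → ℂ, Differentiable ℂ F →
            (∀ z, eval (F z) (H 0) = 1 ∧ eval (F z) (H 1) = Complex.exp (h z)) →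
            ∃ E ∈ Solutions H, ∀ z, F z = E (h z)) ∧
        -- (A2)
        ∃ S : Set (Fin (2 + 1) → Polynomial ℂ), S.Finite ∧ (∀ q ∈ S, GmCurve H q) ∧
          (∀ f, Differentiable ℂ f → (∀ z, OnPair H ∅ (f z)) → FiniteOrder f → NonConst f →
            ∃ q ∈ S, FactorsPoly f q) ∧
          (∀ f, BrodyCurve H f → NonConst f → ∃ q ∈ S, Factors f q) ∧
          (∀ p, GmCurve H p → ∃ q ∈ S, Factors (fun z i => (p i).eval (Complex.exp z)) q) ∧
          (∀ f, EssentialCurve H f → ∃ q ∈ S, ∀ z ∈ PDisc, ∃ t c : ℂ,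
            t ≠ 0 ∧ c ≠ 0 ∧ f z = c • fun i => (q i).eval t) ∧
          (∀ f, Differentiable ℂ f → (∀ z, OnPair H ∅ (f z)) → NonConst f →
            ∀ h : ℂ → ℂ, Differentiable ℂ h →
            (∀ z, eval (f z) (H 1) ^ d 0 = Complex.exp (h z) * eval (f z) (H 0) ^ d 1) →
            ((∃ p : Polynomial ℂ, ∀ z, h z = p.eval z) ∨ Tract h) →
            ∃ q ∈ S, ∃ κ γ : ℂ, κ ≠ 0 ∧ ∀ z, ∃ c : ℂ, c ≠ 0 ∧
              f z = c • fun i => (q i).eval (Complex.exp (κ * h z + γ))) ∧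
          -- (A3)
          (∀ (G : MvPolynomial (Fin (2 + 1)) ℂ) (e : ℕ), G.IsHomogeneous e →
            (LogGTOutside H d ∅ G ↔ ∀ q ∈ S, ∀ t, eval (fun i => (q i).eval t) G = 0) ∧
            (LogGTOutside H d ∅ G ↔ ∀ f, Differentiable ℂ f → (∀ z, OnPair H ∅ (f z)) →
              FiniteOrder f → NonConst f → ∀ z, eval (f z) G = 0) ∧
            (LogGTOutside H d ∅ G ↔ ∀ f, EssentialCurve H f → ∀ z ∈ PDisc, eval (f z) G = 0)) ∧
          ∃ (G : MvPolynomial (Fin (2 + 1)) ℂ) (e : ℕ), G ≠ 0 ∧ G.IsHomogeneous e ∧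
            LogGTOutside H d ∅ G) ∧
      -- (B) a line and a curve
      (d 0 = 1 → 3 ≤ d 1 →
        (∀ β : ℂ, β ≠ 0 → ∀ (Q : MvPolynomial (Fin (2 + 1)) ℂ) (m : ℕ), Q ≠ 0 →
          Q.IsHomogeneous m → (m = 1 ∨ m = 2) →
          ∃ x, eval x Q = 0 ∧ eval x (H 1) ≠ β * eval x (H 0) ^ d 1) →
        NoneInPencil H d) ∧
      -- (C) a line and a cubic
      (d 0 = 1 → d 1 = 3 →
        (∀ p : Fin (2 + 1) → ℂ, p ≠ 0 → eval p (H 0) = 0 → eval p (H 1) = 0 →
          (Matrix.of fun i j => eval p (pderiv i (pderiv j (H 1)))).det ≠ 0) →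
        NoneInPencil H d ∧ (Solutions H).Nonempty ∧ ¬ LogGTOutside H d ∅ 1) ∧
      -- (D) nodes
      (5 ≤ d 0 + d 1 → Morse H → NoneInPencil H d)) ∧
    -- (E) an example
    (Sol Polynomial.X).Finite ∧ (Sol Polynomial.X).Nonempty ∧
      ∀ p : Polynomial ℂ, 0 < p.natDegree →
        Sol p = (fun u => (fun z => u.1 (p.eval z), fun z => u.2 (p.eval z))) '' Sol Polynomial.X := by
  have hC : ∀ (H : Fin 2 → MvPolynomial (Fin (2 + 1)) ℂ) (d : Fin 2 → ℕ), Transversal H d →
      d 0 = 1 → d 1 = 3 →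
        (∀ p : Fin (2 + 1) → ℂ, p ≠ 0 → eval p (H 0) = 0 → eval p (H 1) = 0 →
          (Matrix.of fun i j => eval p (pderiv i (pderiv j (H 1)))).det ≠ 0) →
        NoneInPencil H d ∧ (Solutions H).Nonempty ∧ ¬ LogGTOutside H d ∅ 1 := by
    intro H d hT hd0 hd1 hfl
    obtain ⟨e1, e2, he1, he2, hS⟩ := hT.snc
    obtain rfl : e1 = 0 := by omega
    obtain rfl : e2 = 2 := by omega
    have hN : NoneInPencil H d := none_of he1 he2 (noFlat_cubic hS hfl)
    have hne : (Solutions H).Nonempty := by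
      obtain ⟨p, hp, hp0, hp1⟩ := exists_pt hS.h2 (grad (H 0) 0)
      rw [← hom1 hS.h1] at hp0
      obtain ⟨α, γ, u, hα, h0, h1⟩ := tangent_curve hS hp hp0 hp1 (hfl p hp hp0 hp1)
      refine ⟨fun z => ((Complex.exp z - γ) / α) • p + (1 : ℂ) • u, ?_, fun z => ⟨h0 _ _, ?_⟩⟩
      · fun_prop
      · rw [h1]
        field_simp
        try ring
    refine ⟨hN, hne, fun hL => ?_⟩
    obtain ⟨-, S, -, -, -, -, hSp, -, -, hiff, -⟩ := main hT (by omega) hN
    obtain ⟨F, hF, hF2⟩ := hne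
    have hX : ∀ z, F z ≠ 0 ∧ eval (F z) (H 0) ≠ 0 := by
      intro z
      obtain ⟨h1, h2⟩ := hF2 z
      refine ⟨fun h => ?_, ?_⟩
      · rw [h] at h1
        have := eval_smul' hS.h1 0 0
        rw [smul_zero, zero_pow (Nat.succ_ne_zero _), zero_mul] at this
        rw [this] at h1
        exact zero_ne_one h1
      · rw [h1]
        exact one_ne_zero
    obtain ⟨S', -, hSg', hSe', -⟩ := hS.list2 (by omega) (fib hS hd0 hd1 hN)
    obtain ⟨q, hq, -⟩ := (hSe' F hF (fun z => (hX z).1) (fun z => (hX z).2) Polynomial.X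
      (fun z => by
        rw [(hF2 z).1, (hF2 z).2]
        simp)).2 (by rw [Polynomial.natDegree_X]; exact one_pos)
    obtain ⟨q', hq', -⟩ := hSp q (good_gm hS (hSg' q hq))
    have := (hiff 1 0 (isHomogeneous_one _ _)).1.1 hL q' hq' 0
    rw [map_one] at this
    exact one_ne_zero this
  refine ⟨fun H d hT => ⟨fun hd hN => main hT hd hN, fun hd0 hd1 hE => ?_, hC H d hT,
    fun hd hM => ?_⟩, ?_⟩
  · obtain ⟨e1, e2, he1, he2, hS⟩ := hT.snc
    obtain rfl : e1 = 0 := by omega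
    rw [he2] at hE
    exact none_of he1 he2 (noFlat_line hS (by omega) hE)
  · obtain ⟨e1, e2, he1, he2, hS⟩ := hT.snc
    exact none_of he1 he2 (noFlat_of_fib hS fun F M b hF hb h1 h2 x y =>
      hS.nodal_fibre (by omega) hF h1 h2 (Or.inl one_ne_zero) (nodal_of hM hb) x y)
  · obtain ⟨hN, hne, -⟩ := hC exH ![1, 3] ex_transversal rfl rfl fun p hp h0 h1 => ex_hess hp h0 h1
    obtain ⟨⟨hfin, hfac, -⟩, -⟩ := main ex_transversal (by simp) hN
    obtain ⟨φ, hφ⟩ : ∃ φ : (ℂ → ℂ) × (ℂ → ℂ) → ℂ → Fin (2 + 1) → ℂ,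
        φ = fun p z => ![p.1 z, p.2 z, 1] := ⟨_, rfl⟩
    have hinj : Function.Injective φ := by
      intro p p' h
      rw [hφ] at h
      apply Prod.ext
      · funext z
        exact congrFun (congrFun h z) 0
      · funext z
        exact congrFun (congrFun h z) 1
    have hto : ∀ (r : Polynomial ℂ) (u : (ℂ → ℂ) × (ℂ → ℂ)), u ∈ Sol r →
        Differentiable ℂ (φ u) ∧ ∀ z, eval (φ u z) (exH 0) = 1 ∧
          eval (φ u z) (exH 1) = Complex.exp (r.eval z) := by
      rintro r u ⟨h1, h2, h3⟩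
      rw [hφ]
      refine ⟨differentiable_pi.2 fun i => ?_, fun z => ⟨?_, ?_⟩⟩
      · fin_cases i
        · exact h1
        · exact h2
        · exact differentiable_const _
      · rw [ex0]
        rfl
      · rw [ex1, ← h3 z]
        simp
        ring
    have hfrom : ∀ E ∈ Solutions exH, ((fun z => E z 0, fun z => E z 1) :
        (ℂ → ℂ) × (ℂ → ℂ)) ∈ Sol Polynomial.X := by
      rintro E ⟨h1, h2⟩
      refine ⟨(differentiable_pi.1 h1) 0, (differentiable_pi.1 h1) 1, fun z => ?_⟩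
      obtain ⟨h3, h4⟩ := h2 z
      rw [ex0] at h3
      rw [ex1, h3] at h4
      rw [Polynomial.eval_X, ← h4]
      ring
    refine ⟨?_, ?_, fun r hr => ?_⟩
    · refine (hfin.preimage hinj.injOn).subset ?_
      intro u hu
      obtain ⟨h1, h2⟩ := hto _ u hu
      refine ⟨h1, fun z => ?_⟩
      have h3 := h2 z
      rw [Polynomial.eval_X] at h3
      exact h3
    · obtain ⟨E, hE⟩ := hne
      exact ⟨_, hfrom E hE⟩
    · apply Set.Subset.antisymm
      · intro u hu
        obtain ⟨h1, h2⟩ := hto r u hu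
        obtain ⟨E, hE, hE2⟩ := hfac r hr (φ u) h1 h2
        refine ⟨_, hfrom E hE, ?_⟩
        apply Prod.ext
        · funext z
          have := congrFun (hE2 z) 0
          rw [hφ] at this
          exact this.symm
        · funext z
          have := congrFun (hE2 z) 1
          rw [hφ] at this
          exact this.symm
      · rintro _ ⟨u, ⟨h1, h2, h3⟩, rfl⟩
        refine ⟨h1.comp r.differentiable, h2.comp r.differentiable, fun z => ?_⟩
        have h4 := h3 (r.eval z)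
        rw [Polynomial.eval_X] at h4
        exact h4

end Pool.Agent.Results.MP_160ed4_ag.FiniteOrderCurves
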