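import Mathlib
import Pool.Agent.H917.M.R3

/-!
MP_160ed4_ag, Q1: the equivalence of the conditions for quasi-projective varieties `X` with a
compactification such that some symmetric power of the logarithmic cotangent bundle is generated by
global sections, and for all closed subvarieties of `X`.

The boundary `D` of the projective variety `X̄` with the ideal `p` is given by boundary coordinates:
in the chart where the `j`-th coordinate is not zero, `D` is the union of the hyperplane sections
given by the coordinates in `B j` (`BdC p B`), and `X = X̄ \ D` is the set of the points `x` with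
`OffB B x`. Every pair (smooth projective variety, divisor with simple normal crossings) has such
an embedding in a projective space, in which each component of `D` is, in each chart, the divisor
of one of the coordinates: take line bundles `A` and `A(-D_i)`, all very ample, with generating
sections `a_j` (among them all `s_i t^(i)_c`, where `s_i` is the section of `O(D_i)` with the
divisor `D_i`) and `t^(i)_c`, and the coordinates `a_j * ∏_i t^(i)_(c_i)`.

`Sp_sab` is contained in `Sp_mer` (`SpMerB`), the closure of the union of the images of the
nonconstant holomorphic maps to the variety from `ℂ^g` minus a closed subset whose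
`(2g-2)`-dimensional Hausdorff measure is zero: if `A` is a semi-abelian variety, `f : A ⇢ V` a
rational map which is a morphism on `A_0`, with `codim (A \ A_0) ≥ 2`, then `f` composed with the
universal covering `ℂ^g → A` is a holomorphic map with the same image on the complement of an
analytic subset of codimension at least two. It contains `SpGmQ` (images of the punctured line
`ℂ^*`) and `SpAb` (images of abelian varieties). So the theorem shows that
`Sp_sab = Sp_alg = Sp_h = Sp_p` if the boundary is a hypersurface section (`X` is affine) or empty.
-/

set_option autoImplicit false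

namespace Pool.Agent.Results.MP_160ed4_ag.GenPowersLog

open MvPolynomial Pool.Agent.H917 Pool.Agent.H917.Lg Pool.Agent.H917.Mg
open Pool.Agent.W602.GT (LogGeneralType)

/-- Let `p` be the homogeneous ideal of a projective variety `X̄`, with the boundary `D` given by
the boundary coordinates `B`, such that the `m`-th symmetric power of the logarithmic cotangent
sheaf of `(X̄, D)` is generated by global sections, for some `m ≥ 1`. Let `V̄` be an irreducible
closed subvariety of `X̄` which is not contained in `D` (such as `X̄` itself, if it is irreducible),
with the homogeneous prime ideal `q`, the function field `K` of transcendence degree `w` and the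
generic point `y`. Then `V = V̄ \ D` satisfies `Sp_p (V) = Sp_h (V) = Sp_mer (V) = Sp_alg (V)`, and
this set is different from `V` if and only if `V` is of log general type. So the conditions (1)-(4)
are equivalent for the closed subvarieties `V` of `X = X̄ \ D`, and they imply (5). If the
boundary of `V` is a hypersurface section `Q = 0` of `V̄` (for example if `D` is a hypersurface
section of `X̄`), then also `Sp_Gm (V)` is this set; if `D` is empty, then also `Sp_ab (V)` is this
set. In these cases, the conditions (1)-(5) are equivalent. -/
theorem result {n : ℕ} (p : Ideal (MvPolynomial (Fin (n + 1)) ℂ))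
    (B : Fin (n + 1) → Finset (Fin (n + 1))) (hB : BdC p B) {m : ℕ} (hm : 1 ≤ m)
    (hg : BGenerated p B m)
    (q : Ideal (MvPolynomial (Fin (n + 1)) ℂ)) (hqp : q.IsPrime)
    (hq : ∀ H ∈ q, ∀ d, homogeneousComponent d H ∈ q) (hpq : p ≤ q) (K : Type) [Field K]
    [Algebra ℂ K] (w : ℕ) (y : Fin (n + 1) → K) (hy : SubVarB q B K w y)
    (hf : ∀ H : MvPolynomial (Fin (n + 1)) ℂ, (∃ d, H.IsHomogeneous d) → aeval y H = 0 → H ∈ q) :
    SpPB q B = SpAlgB q B ∧ SpHB q B = SpAlgB q B ∧ SpMerB q B = SpAlgB q B ∧
      (∀ (Q : MvPolynomial (Fin (n + 1)) ℂ) (d : ℕ), 1 ≤ d → Q.IsHomogeneous d → Bdry q Q B →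
        SpGmQ q Q = SpAlgB q B) ∧
      ((∀ j, B j = ∅) → SpAb q = SpAlgB q B) ∧
      (LogGeneralType ℂ K w (BdP B y) ↔ SpAlgB q B ≠ PtsB q B) := by
  have hB' := hB.res hpq
  have hg' := hg.res hpq
  obtain ⟨h1, h2, h3⟩ := bsp_eq hq hB' hm hg'
  exact ⟨h1, h2, h3, fun Q d hd hQ hQB => spGm_eq hq hd hQ hQB hm hg',
    fun h0 => spAb_eqB h0 hq hB' hm hg', lgtB_iff hqp hq hB' hm hg' hy hf⟩

end Pool.Agent.Results.MP_160ed4_ag.GenPowersLog
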