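import Pool.Agent.H911.KE.Cmp
import Pool.Agent.H911.KE.Unc

/-!
# The generalized Green–Griffiths–Lang conjecture in dimension `m`: equivalence with hypersurfaces of
# dimension `m + 1` with a singular locus of codimension at least 3 (projective and affine varieties)

For a projective variety Q1 says that the five conditions (1) general type, (2) `Sp_alg ≠ X`,
(3) `Sp_p ≠ X`, (4) `Sp_h ≠ X`, (5) `Sp_sab ≠ X` are equivalent. For quasi-projective varieties
`U = V ∖ V(T)` (`T` a set of forms) we consider the conditions (1) to (4).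

Let `0 ≤ k ≤ m`. We consider hypersurfaces `Y` of dimension `2 m - k` (for projective and affine
varieties) and `3 m - k` (for quasi-projective varieties) whose singular locus is of dimension less than
`k`. For `k = 0` they are smooth; for `k = m - 1` the first ones are hypersurfaces of dimension `m + 1`
whose singular locus is of dimension at most `m - 2` (for `m = 2`: threefolds in `P^4` with isolated
singularities). For `k < m` they are irreducible and normal. Such a `Y` is called hyperbolic outside of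
an irreducible closed subset `X'` if `X' ⊆ Y`, and all singular points of `Y`, all nonconstant entire curves
in `Y`, all punctured discs in `Y` with an essential singularity and all closed subvarieties of `Y` of
positive dimension not of general type are in `X'`.

**(0) Models.** Let `N = 3 m + 1 - k` and let `U = X ∖ V(T)` be a quasi-projective variety of dimension
`1, …, m`, `X` a closed subvariety of `P^n` (with any singularities). There are forms `B_0, …, B_N` of the
same degree without common zeros on `X`, giving a finite morphism from `X` to `P^N`, birational onto its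
image `X'`, such that `X ∩ V(T)` is the set of zeros of `B_0, …, B_m` on `X`. So `U` is mapped to the closed
subvariety `U' = X' ∖ {y_0 = ⋯ = y_m = 0}` of `Y ∖ {y_0 = ⋯ = y_m = 0}`, where
`Y : ∑ t, Q_t(y) (y_0 + t y_1 + ⋯ + t^N y_N)^D = 0` is hyperbolic outside of `X'`, with a singular locus of
dimension less than `k`; `D` is any large number.

**(0′) Unconditional part.** Let `Y` be a hypersurface in a projective space of any dimension which is
hyperbolic outside of `X'`. The four special sets of `Y` are those of `X'`. For every closed subvariety `V` of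
`Y` of positive dimension which is not contained in `X'` (for instance `V = Y`) all five conditions are true,
and for all sets `T` of forms which do not all vanish on `V` all four conditions are true for `V ∖ V(T)`, with
one proper closed subset `V ∩ {G = 0}` of `V` for all special sets and all `T`. So Q1 is true for all these
`V` and `V ∖ V(T)`.

**(A) Projective varieties.** Let `0 ≤ k ≤ m`, `N = 2 m + 1 - k`. For every choice of one exponent
`δ₁(e) ≥ D₁(e)` for each `e` the following statements are equivalent.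
(A1) The five conditions are equivalent for all projective varieties of dimension at most `m`.
(A2) For all hypersurfaces `Y` in `P^N`, with a singular locus of dimension less than `k`, which are
hyperbolic outside of an irreducible closed subset of dimension at most `m`, the four special sets
`Sp_alg(Y)`, `Sp_p(Y)`, `Sp_h(Y)`, `Sp_sab(Y)` are equal, and no component of positive dimension of them is
of general type.
(A3) The same for the hypersurfaces `∑ t, Q_t(y) (y_0 + t y_1 + ⋯ + t^N y_N)^D = 0` only, with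
`N (2 N + 1)` forms `Q_t` of the same degree `e` and `D = δ₁(e)`: for each degree `e` only one linear
system of hypersurfaces, of degree `e + δ₁(e)`.

**(B) Affine varieties.** The same for the conditions (1) to (4) for affine varieties `X ∖ {x_0 = 0}` of
dimension at most `m` and the affine varieties `Y ∖ {y_0 = 0}` of dimension `2 m - k`: their three special
sets are equal, and no component of positive dimension is of log general type.

**(C) Quasi-projective varieties.** The same for the conditions (1) to (4) for all quasi-projective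
varieties of dimension at most `m`, and for hypersurfaces `Y` in `P^N`, `N = 3 m + 1 - k`. Here (C2) is
about all quasi-projective varieties `Y ∖ V(T)`, and (C3) only about the complements
`Y ∖ {y_0 = ⋯ = y_m = 0}` of linear subspaces in the hypersurfaces of the form
`∑ t, Q_t(y) (y_0 + t y_1 + ⋯ + t^N y_N)^D = 0`, `D = δ₂(e)`, `δ₂(e) ≥ D₂(e)` any given exponents.

So in every dimension `m` the conjecture for projective varieties is a statement about smooth
hypersurfaces of dimension `2 m` in `P^(2 m + 1)`, and also about hypersurfaces of dimension `m + 1` in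
`P^(m + 2)` with a singular locus of dimension at most `m - 2`, whose special sets are known to be contained
in a closed subset of dimension at most `m`. The conjecture for all projective surfaces is equivalent to
a statement about threefolds in `P^4` with isolated singularities. (For quasi-projective varieties with
arbitrary singularities the conditions are equivalent if and only if this is true for all smooth ones,
by resolution of singularities.)

Proof. Let `z` be the generic point of `X'`, of dimension `w`, in a linear subspace `P^M` of `P^N`, where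
`M + w ≤ N + k` (`M = w + 1` in (A) and (B), `M = m + w + 1` in (C)). The forms which vanish at `z`, of a
degree `e` such that they define `X'` and one of them has a derivative which does not vanish at `z`,
together with the products of the remaining coordinates with monomials, have a Jacobian matrix with the
following property: at every point of `X'` its rank plus `k` is larger than the dimension of this point
(also at the singular points of `X'`). A count of parameters (for general coefficients of the `Q_t` and of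
`k` linear forms) shows that the singular locus of the general `Y` of this form does not meet a linear
subspace of codimension `k`. Outside of `X'` entire curves, discs and closed subvarieties are treated by
the methods of the library modules `N254.SQ`. If `U` is of log general type, but `U'` is contained in
the special set of `Y ∖ V(T')`, then it is contained in a component `W` of it, which is not of log general
type, so `W` is contained in `X'` and `W = U'` is of log general type, a contradiction. Conversely, entire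
curves and punctured discs in `U'` can be lifted to `U`, because the morphism is finite and birational.
Finally, the special sets of `Y ∖ V(T)` are those of its closed subset `X' ∖ V(T)` of dimension at most
`m`, which gives (A1) ⟹ (A2), (B1) ⟹ (B2) and (C1) ⟹ (C2).
-/

set_option autoImplicit false

namespace Pool.Agent.Results.MP_160ed4_ag.SmallSingularLocus

open MvPolynomial Metric
open Pool.Agent.W602.GT (SubVar GeneralType coords)
open Pool.Agent.N254.SQ (IsForm Eqs Component NotIn LogGeneral OnSpecialQ OnCurvesQ OnDiscsQ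
  OnSpecial OnCurves OnDiscs OnSab Extends powerForm)

/-- The conditions (1) to (5) of Q1 are equivalent for all irreducible projective varieties of
dimension `1, …, m`, smooth or not: the closed subsets of `P^n` with function field `L` and generic
point `y`. -/
def FiveConditions (m : ℕ) : Prop :=
  ∀ (n : ℕ) (L : Type) [Field L] [Algebra ℂ L] (w : ℕ) (y : Fin (n + 1) → L), 1 ≤ w → w ≤ m →
    SubVar (fun p : (∅ : Set (MvPolynomial (Fin (n + 1)) ℂ)) => (p : MvPolynomial (Fin (n + 1)) ℂ))
      L w y →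
    [GeneralType ℂ L w,
      ∃ G : MvPolynomial (Fin (n + 1)) ℂ, IsForm G ∧ aeval y G ≠ 0 ∧ OnSpecial (Eqs y) G,
      ∃ G : MvPolynomial (Fin (n + 1)) ℂ, IsForm G ∧ aeval y G ≠ 0 ∧ OnDiscs (Eqs y) G,
      ∃ G : MvPolynomial (Fin (n + 1)) ℂ, IsForm G ∧ aeval y G ≠ 0 ∧ OnCurves (Eqs y) G,
      ∃ G : MvPolynomial (Fin (n + 1)) ℂ, IsForm G ∧ aeval y G ≠ 0 ∧ OnSab (Eqs y) G].TFAE

/-- The conditions (1) to (4) of Q1 are equivalent for all irreducible quasi-projective varieties
`V ∖ V(T)` of dimension `1, …, m`, smooth or not, with `T` in the class `C` of sets of forms; `V` is the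
closed subset of `P^n` with function field `L` and generic point `y`. -/
def FourConditions (C : ∀ n : ℕ, Set (Set (MvPolynomial (Fin (n + 1)) ℂ))) (m : ℕ) : Prop :=
  ∀ n : ℕ, ∀ T ∈ C n, ∀ (L : Type) [Field L] [Algebra ℂ L] (w : ℕ) (y : Fin (n + 1) → L), 1 ≤ w →
    w ≤ m →
    SubVar (fun p : (∅ : Set (MvPolynomial (Fin (n + 1)) ℂ)) => (p : MvPolynomial (Fin (n + 1)) ℂ))
      L w y → NotIn T y →
    [LogGeneral T L w y,
      ∃ G : MvPolynomial (Fin (n + 1)) ℂ, IsForm G ∧ aeval y G ≠ 0 ∧ OnSpecialQ (Eqs y) T G,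
      ∃ G : MvPolynomial (Fin (n + 1)) ℂ, IsForm G ∧ aeval y G ≠ 0 ∧ OnDiscsQ (Eqs y) T G,
      ∃ G : MvPolynomial (Fin (n + 1)) ℂ, IsForm G ∧ aeval y G ≠ 0 ∧
        OnCurvesQ (Eqs y) T G].TFAE

/-- all quasi-projective varieties -/
def quasiProjective : ∀ n : ℕ, Set (Set (MvPolynomial (Fin (n + 1)) ℂ)) :=
  fun _ => {T | ∀ F ∈ T, IsForm F}

/-- affine varieties: closed subvarieties of the affine space `P^n ∖ {x_0 = 0}` -/
def affine : ∀ n : ℕ, Set (Set (MvPolynomial (Fin (n + 1)) ℂ)) := fun _ => {{X 0}}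

/-- the four special sets of the projective variety `A = 0` are equal: the same forms vanish on them;
and no irreducible component of positive dimension is of general type -/
def FourSets {N : ℕ} (A : MvPolynomial (Fin (N + 1)) ℂ) : Prop :=
  (∀ G, IsForm G → (OnCurves {A} G ↔ OnSpecial {A} G) ∧ (OnDiscs {A} G ↔ OnSpecial {A} G) ∧
    (OnSab {A} G ↔ OnSpecial {A} G)) ∧
    ∀ (L : Type) [Field L] [Algebra ℂ L] (w : ℕ) (y : Fin (N + 1) → L), 1 ≤ w →
      SubVar (fun _ : Unit => A) L w y → GeneralType ℂ L w → ¬ Component (OnSpecial {A}) y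

/-- the three special sets of `V(A) ∖ V(T)` (of entire curves, of punctured discs with an essential
singularity, of subvarieties not of log general type) are equal: the same forms vanish on them; and
no irreducible component of positive dimension is of log general type -/
def ThreeSets {N : ℕ} (A : MvPolynomial (Fin (N + 1)) ℂ)
    (T : Set (MvPolynomial (Fin (N + 1)) ℂ)) : Prop :=
  (∀ G, IsForm G → (OnCurvesQ {A} T G ↔ OnSpecialQ {A} T G) ∧
    (OnDiscsQ {A} T G ↔ OnSpecialQ {A} T G)) ∧
    ∀ (L : Type) [Field L] [Algebra ℂ L] (w : ℕ) (y : Fin (N + 1) → L), 1 ≤ w →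
      SubVar (fun _ : Unit => A) L w y → NotIn T y → LogGeneral T L w y →
        ¬ Component (OnSpecialQ {A} T) y

/-- the coordinates `y_0, …, y_m` -/
def coordinates (m N : ℕ) : Set (MvPolynomial (Fin (N + 1)) ℂ) :=
  {F | ∃ i : Fin (N + 1), (i : ℕ) ≤ m ∧ F = X i}

/-- The singular locus of the hypersurface `A = 0` is of dimension less than `k`: some `k` linear forms
have no common zero on it. For `k = 0` the hypersurface is smooth. -/
def SmallSing {N : ℕ} (k : ℕ) (A : MvPolynomial (Fin (N + 1)) ℂ) : Prop :=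
  ∃ l : Fin k → Fin (N + 1) → ℂ, ∀ x : Fin (N + 1) → ℂ, x ≠ 0 → (∀ i, ∑ j, l i j * x j = 0) →
    ∃ j, eval x (pderiv j A) ≠ 0

/-- the singular locus of the hypersurface `A = 0` is of dimension less than `k`, the hypersurface
contains the irreducible closed set `X'` with generic point `z`, and its singular points, the nonconstant
entire curves in `A = 0`, the holomorphic maps from the punctured disc to `A = 0` which do not extend, and
the closed subvarieties of `A = 0` of positive dimension not of general type are in `X'` -/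
def HyperbolicOutside {N : ℕ} (k : ℕ) (A : MvPolynomial (Fin (N + 1)) ℂ) {L : Type} [Field L]
    [Algebra ℂ L] (z : Fin (N + 1) → L) : Prop :=
  SmallSing k A ∧ aeval z A = 0 ∧
    (∀ x : Fin (N + 1) → ℂ, x ≠ 0 → (∀ j, eval x (pderiv j A) = 0) → ∀ p ∈ Eqs z, eval x p = 0) ∧
    (∀ f : ℂ → Fin (N + 1) → ℂ, Differentiable ℂ f → (∀ t, f t ≠ 0) → (∀ t, eval (f t) A = 0) →
      (∀ s t, ∃ c : ℂ, f t = c • f s) ∨ ∀ t, ∀ p ∈ Eqs z, eval (f t) p = 0) ∧
    (∀ f : ℂ → Fin (N + 1) → ℂ, DifferentiableOn ℂ f (ball 0 1 \ {0}) →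
      (∃ t ∈ ball (0 : ℂ) 1 \ {0}, f t ≠ 0) → (∀ t ∈ ball (0 : ℂ) 1 \ {0}, eval (f t) A = 0) →
      Extends f ∨ ∀ t ∈ ball (0 : ℂ) 1 \ {0}, ∀ p ∈ Eqs z, eval (f t) p = 0) ∧
    ∀ (L' : Type) [Field L'] [Algebra ℂ L'] (w : ℕ) (y : Fin (N + 1) → L'), 1 ≤ w →
      SubVar (fun _ : Unit => A) L' w y → GeneralType ℂ L' w ∨ ∀ p ∈ Eqs z, aeval y p = 0

/-- The singular locus of the hypersurface `A = 0` is of dimension less than `k`, and the hypersurface is
hyperbolic outside of some irreducible closed subset of dimension at most `m`. -/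
def Outside {N : ℕ} (m k : ℕ) (A : MvPolynomial (Fin (N + 1)) ℂ) : Prop :=
  ∃ (L : Type) (_ : Field L) (_ : Algebra ℂ L) (w : ℕ) (z : Fin (N + 1) → L), w ≤ m ∧
    SubVar (fun p : (∅ : Set (MvPolynomial (Fin (N + 1)) ℂ)) =>
      (p : MvPolynomial (Fin (N + 1)) ℂ)) L w z ∧ HyperbolicOutside k A z

/-- `W` for all hypersurfaces in `P^N`, with a singular locus of dimension less than `k`, which are
hyperbolic outside of an irreducible closed subset of dimension at most `m` -/
def ForOutside (m N k : ℕ) (W : MvPolynomial (Fin (N + 1)) ℂ → Prop) : Prop :=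
  ∀ A : MvPolynomial (Fin (N + 1)) ℂ, IsForm A → Outside m k A → W A

/-- `W` for all these hypersurfaces of the form `∑ t, Q_t(y) (y_0 + t y_1 + ⋯ + t^N y_N)^D = 0`, `Q_t` forms of
the same degree `e`, `D = δ e` -/
def ForPower (m N k : ℕ) (δ : ℕ → ℕ) (W : MvPolynomial (Fin (N + 1)) ℂ → Prop) : Prop :=
  ∀ (e : ℕ) (Q : Fin (N * (2 * N + 1)) → MvPolynomial (Fin (N + 1)) ℂ),
    (∀ t, (Q t).IsHomogeneous e) → Outside m k (powerForm (δ e) Q) → W (powerForm (δ e) Q)

section proof

open Pool.Agent.N254.SQ (Gen)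
open Pool.Agent.H911.GD

theorem outside {N k : ℕ} {A : MvPolynomial (Fin (N + 1)) ℂ} {L : Type} [Field L] [Algebra ℂ L]
    {z : Fin (N + 1) → L} (h : Pool.Agent.H911.KD.PropK k z A) : HyperbolicOutside k A z :=
  ⟨h.sing, h.van L z fun _ hp => hp.2, h.out, h.curves, h.discs,
    fun L' _ _ w y hw hy => h.sub L' w y hw hy⟩

theorem outside_of {N m k : ℕ} {A : MvPolynomial (Fin (N + 1)) ℂ}
    (h : Pool.Agent.H911.KE.Out m k A) : Outside m k A := by
  obtain ⟨L, _, _, w, z, hwm, hz, hp⟩ := h
  exact ⟨L, _, _, w, z, hwm, ⟨hz.ne, fun p => absurd p.2 (Set.notMem_empty _), hz.gen, hz.dim⟩,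
    outside hp⟩

theorem to_out {N m k : ℕ} {A : MvPolynomial (Fin (N + 1)) ℂ} (hA : IsForm A)
    (h : Outside m k A) : Pool.Agent.H911.KE.Out m k A := by
  obtain ⟨L, _, _, w, z, hwm, hz, h1, h2, h3, h4, h5, h6⟩ := h
  exact ⟨L, _, _, w, z, hwm, ⟨hz.ne, hz.gen, hz.dim⟩, hA, h1, h3,
    fun Ω _ _ x hx => hx A ⟨hA, h2⟩, fun L' _ _ w y hw hy => h6 L' w y hw hy, h4, h5⟩

/-- from varieties to hypersurfaces: four conditions -/
theorem four_of {N m k : ℕ} {A : MvPolynomial (Fin (N + 1)) ℂ}
    (hout : Pool.Agent.H911.KE.Out m k A) {T : Set (MvPolynomial (Fin (N + 1)) ℂ)}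
    (hT : ∀ F ∈ T, IsForm F) (h : ∀ (L : Type) [Field L] [Algebra ℂ L] (w : ℕ)
      (y : Fin (N + 1) → L), 1 ≤ w → w ≤ m → Gen L w y → NotIn T y → Cond4 T L w y) :
    Four A T := by
  obtain ⟨L, _, _, w, z, hwm, hz, hp⟩ := hout
  exact Pool.Agent.H911.KE.four_out hz hwm hp.van
    (fun F hF => Pool.Agent.H911.KD.base_special hp hF)
    (fun F hF => Pool.Agent.H911.KD.base_curves hp hF)
    (fun F hF => Pool.Agent.H911.KD.base_discs hp hF) hT h

/-- from varieties to hypersurfaces: semi-abelian special sets -/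
theorem sab_of {N m k : ℕ} {A : MvPolynomial (Fin (N + 1)) ℂ}
    (hout : Pool.Agent.H911.KE.Out m k A) (h : ∀ (L : Type) [Field L] [Algebra ℂ L] (w : ℕ)
      (y : Fin (N + 1) → L), 1 ≤ w → w ≤ m → Gen L w y → NotIn {1} y →
      (LogGeneral {1} L w y ↔ ∃ G, IsForm G ∧ aeval y G ≠ 0 ∧ SabQ (Eqs y) {1} G)) :
    Excep (fun _ S T G => SabQ S T G) A {1} := by
  obtain ⟨L, _, _, w, z, hwm, hz, hp⟩ := hout
  exact Pool.Agent.H911.KE.out_iff (P := fun _ S T G => SabQ S T G) typ_sab
    (fun F hF _ => Pool.Agent.H911.KE.sab_of A L z hp F hF) hz hwm hp.van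
    (fun F hF => Pool.Agent.H911.KD.base_special hp hF) one_form h

theorem tfae_iff {n : ℕ} {T : Set (MvPolynomial (Fin (n + 1)) ℂ)} {L : Type} [Field L]
    [Algebra ℂ L] {w : ℕ} {y : Fin (n + 1) → L} :
    [LogGeneral T L w y,
      ∃ G : MvPolynomial (Fin (n + 1)) ℂ, IsForm G ∧ aeval y G ≠ 0 ∧ OnSpecialQ (Eqs y) T G,
      ∃ G : MvPolynomial (Fin (n + 1)) ℂ, IsForm G ∧ aeval y G ≠ 0 ∧ OnDiscsQ (Eqs y) T G,
      ∃ G : MvPolynomial (Fin (n + 1)) ℂ, IsForm G ∧ aeval y G ≠ 0 ∧
        OnCurvesQ (Eqs y) T G].TFAE ↔ Cond4 T L w y := by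
  constructor
  · intro h
    exact ⟨h.out 0 3, h.out 0 2, h.out 0 1⟩
  · rintro ⟨h1, h2, h3⟩
    tfae_have 1 ↔ 2 := h3
    tfae_have 1 ↔ 3 := h2
    tfae_have 1 ↔ 4 := h1
    tfae_finish

theorem sets_iff {N : ℕ} (A : MvPolynomial (Fin (N + 1)) ℂ)
    (T : Set (MvPolynomial (Fin (N + 1)) ℂ)) : ThreeSets A T ↔ Four A T := Iff.rfl

theorem five_iff {N : ℕ} {A : MvPolynomial (Fin (N + 1)) ℂ} (hA : IsForm A) :
    FourSets A ↔ Four A {1} ∧ Excep (fun _ S T G => SabQ S T G) A {1} := by
  have hS : ∀ p ∈ ({A} : Set (MvPolynomial (Fin (N + 1)) ℂ)), IsForm p := by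
    intro p hp
    rw [Set.mem_singleton_iff] at hp
    rw [hp]
    exact hA
  unfold FourSets Four Excep
  simp only [sab_fun, special_fun, curves_fun, discs_one hS]
  constructor
  · rintro ⟨h1, h2⟩
    exact ⟨⟨fun G hG => ⟨(h1 G hG).1, (h1 G hG).2.1⟩, fun L _ _ w y hw hy _ hlog =>
      h2 L w y hw hy ((log_one hy.ne).1 hlog)⟩, fun G hG => (h1 G hG).2.2,
      fun L _ _ w y hw hy _ hlog => h2 L w y hw hy ((log_one hy.ne).1 hlog)⟩
  · rintro ⟨⟨h1, h2⟩, h3, -⟩
    exact ⟨fun G hG => ⟨(h1 G hG).1, (h1 G hG).2, h3 G hG⟩, fun L _ _ w y hw hy hgt =>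
      h2 L w y hw hy (notIn_one y) ((log_one hy.ne).2 hgt)⟩

/-- the five conditions for one variety -/
theorem five_cond {n : ℕ} {L : Type} [Field L] [Algebra ℂ L] {w : ℕ} {y : Fin (n + 1) → L}
    (hy : y ≠ 0) :
    [GeneralType ℂ L w,
      ∃ G : MvPolynomial (Fin (n + 1)) ℂ, IsForm G ∧ aeval y G ≠ 0 ∧ OnSpecial (Eqs y) G,
      ∃ G : MvPolynomial (Fin (n + 1)) ℂ, IsForm G ∧ aeval y G ≠ 0 ∧ OnDiscs (Eqs y) G,
      ∃ G : MvPolynomial (Fin (n + 1)) ℂ, IsForm G ∧ aeval y G ≠ 0 ∧ OnCurves (Eqs y) G,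
      ∃ G : MvPolynomial (Fin (n + 1)) ℂ, IsForm G ∧ aeval y G ≠ 0 ∧ OnSab (Eqs y) G].TFAE ↔
    Cond4 {1} L w y ∧ (LogGeneral {1} L w y ↔
      ∃ G, IsForm G ∧ aeval y G ≠ 0 ∧ SabQ (Eqs y) {1} G) := by
  have hS : ∀ p ∈ Eqs y, IsForm p := fun p hp => hp.1
  unfold Cond4
  simp only [sab_one, special_one, curves_one, discs_one hS, log_one hy]
  constructor
  · intro h
    exact ⟨⟨h.out 0 3, h.out 0 2, h.out 0 1⟩, h.out 0 4⟩
  · rintro ⟨⟨h1, h2, h3⟩, h4⟩
    tfae_have 1 ↔ 2 := h3
    tfae_have 1 ↔ 3 := h2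
    tfae_have 1 ↔ 4 := h1
    tfae_have 1 ↔ 5 := h4
    tfae_finish

end proof

/-- **The generalized Green–Griffiths–Lang conjecture for varieties of dimension at most `m` is equivalent
to a statement on hypersurfaces of dimension `2 m - k` (projective and affine varieties) and `3 m - k`
(quasi-projective varieties), with a singular locus of dimension less than `k`, which are hyperbolic
outside of a closed subset of dimension at most `m`.** -/
theorem result (m k N M : ℕ) (hk : k ≤ m) (hN : N + k = 2 * m + 1) (hM : M + k = 3 * m + 1) :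
    ∃ D₁ D₂ : ℕ → ℕ,
    -- (0) models of quasi-projective varieties in complements of linear subspaces in
    -- hypersurfaces of dimension `3 m - k`
    (∀ (n : ℕ) (T : Set (MvPolynomial (Fin (n + 1)) ℂ)), (∀ F ∈ T, IsForm F) →
      ∀ (L : Type) [Field L] [Algebra ℂ L] (w : ℕ) (y : Fin (n + 1) → L), 1 ≤ w → w ≤ m →
      SubVar (fun p : (∅ : Set (MvPolynomial (Fin (n + 1)) ℂ)) =>
        (p : MvPolynomial (Fin (n + 1)) ℂ)) L w y → NotIn T y →
      ∃ (e d : ℕ) (B : Fin (M + 1) → MvPolynomial (Fin (n + 1)) ℂ), 1 ≤ e ∧ 1 ≤ d ∧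
        (∀ i, (B i).IsHomogeneous d) ∧
        (∀ x : Fin (n + 1) → ℂ, x ≠ 0 → (∀ p ∈ Eqs y, eval x p = 0) → ∃ i, eval x (B i) ≠ 0) ∧
        (∀ x : Fin (n + 1) → ℂ, x ≠ 0 → (∀ p ∈ Eqs y, eval x p = 0) →
          ((∀ F ∈ T, eval x F = 0) ↔ ∀ i : Fin (M + 1), (i : ℕ) ≤ m → eval x (B i) = 0)) ∧
        coords ℂ (fun i => aeval y (B i)) = ⊤ ∧
        ∀ D, D₂ e ≤ D → ∃ Q : Fin (M * (2 * M + 1)) → MvPolynomial (Fin (M + 1)) ℂ,
          (∀ t, (Q t).IsHomogeneous e) ∧
          HyperbolicOutside k (powerForm D Q) fun i => aeval y (B i)) ∧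
    -- (0') for all hypersurfaces `Y` which are hyperbolic outside of `X'` the special sets of `Y` are those
    -- of `X'`, and for all closed subvarieties `V` of `Y` of positive dimension which are not in `X'` all
    -- conditions are true (for `V`, and for `V ∖ V(T)` for all `T`)
    (∀ (n : ℕ) (A : MvPolynomial (Fin (n + 1)) ℂ) (L : Type) [Field L] [Algebra ℂ L]
      (z : Fin (n + 1) → L), IsForm A → HyperbolicOutside k A z →
      (∀ G, (OnSpecial {A} G ↔ OnSpecial (Eqs z) G) ∧ (OnDiscs {A} G ↔ OnDiscs (Eqs z) G) ∧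
        (OnCurves {A} G ↔ OnCurves (Eqs z) G) ∧ (OnSab {A} G ↔ OnSab (Eqs z) G)) ∧
      ∀ (L' : Type) [Field L'] [Algebra ℂ L'] (w : ℕ) (y : Fin (n + 1) → L'), 1 ≤ w →
        SubVar (fun _ : Unit => A) L' w y → (∃ p ∈ Eqs z, aeval y p ≠ 0) →
          GeneralType ℂ L' w ∧ ∃ G : MvPolynomial (Fin (n + 1)) ℂ, IsForm G ∧ aeval y G ≠ 0 ∧
            (OnSpecial (Eqs y) G ∧ OnDiscs (Eqs y) G ∧ OnCurves (Eqs y) G ∧ OnSab (Eqs y) G) ∧
            ∀ T : Set (MvPolynomial (Fin (n + 1)) ℂ), (∀ F ∈ T, IsForm F) → NotIn T y →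
              LogGeneral T L' w y ∧ OnSpecialQ (Eqs y) T G ∧ OnDiscsQ (Eqs y) T G ∧
                OnCurvesQ (Eqs y) T G) ∧
    ∀ δ₁ δ₂ : ℕ → ℕ, (∀ e, D₁ e ≤ δ₁ e) → (∀ e, D₂ e ≤ δ₂ e) →
      -- (A) projective varieties, hypersurfaces of dimension `2 m - k`
      [FiveConditions m, ForOutside m N k FourSets, ForPower m N k δ₁ FourSets].TFAE ∧
      -- (B) affine varieties, hypersurfaces of dimension `2 m - k`
      [FourConditions affine m, ForOutside m N k fun A => ThreeSets A {X 0},
        ForPower m N k δ₁ fun A => ThreeSets A {X 0}].TFAE ∧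
      -- (C) quasi-projective varieties, hypersurfaces of dimension `3 m - k`
      [FourConditions quasiProjective m,
        ForOutside m M k fun A =>
          ∀ T : Set (MvPolynomial (Fin (M + 1)) ℂ), (∀ F ∈ T, IsForm F) → ThreeSets A T,
        ForPower m M k δ₂ fun A => ThreeSets A (coordinates m M)].TFAE := by
  obtain ⟨D₁, H₁⟩ := Pool.Agent.H911.KD.exists_bounds N k (by omega)
  obtain ⟨D₂, H₂⟩ := Pool.Agent.H911.KD.exists_bounds M k (by omega)
  have hform : ∀ {N e D : ℕ} {Q : Fin (N * (2 * N + 1)) → MvPolynomial (Fin (N + 1)) ℂ},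
      (∀ t, (Q t).IsHomogeneous e) → IsForm (powerForm D Q) := fun hQ =>
    ⟨_, Pool.Agent.H911.GD.power_hom hQ⟩
  have hX : ∀ n : ℕ, ∀ F ∈ ({X 0} : Set (MvPolynomial (Fin (n + 1)) ℂ)), IsForm F := by
    intro n F hF
    rw [Set.mem_singleton_iff] at hF
    rw [hF]
    exact ⟨1, isHomogeneous_X ℂ 0⟩
  refine ⟨D₁, D₂, ?_, ?_, fun δ₁ δ₂ hδ₁ hδ₂ => ?_⟩
  · -- (0)
    intro n T hT L _ _ w y hw hwm hy hyT
    obtain ⟨e, d, B, he, hd, hB, h1, h2, h3, h4⟩ := Pool.Agent.H911.KD.quasi_models
      (show 2 * m + 1 ≤ M by omega) (show 3 * m + 1 ≤ M + k by omega) H₂ hw hwm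
      ⟨hy.ne, hy.gen, hy.dim⟩ hT hyT
    refine ⟨e, d, B, he, hd, hB, h1, h2, h3, fun D hD => ?_⟩
    obtain ⟨Q, hQ, hp⟩ := h4 D hD
    exact ⟨Q, hQ, outside hp⟩
  · -- (0')
    intro n A L _ _ z hA hO
    obtain ⟨-, hzA, -, hcur, hdis, hsub⟩ := hO
    have hAz : A ∈ Eqs z := ⟨hA, hzA⟩
    refine ⟨fun G => ⟨Pool.Agent.H911.KE.unc_special hAz hsub G,
      Pool.Agent.H911.KE.unc_discs hAz hdis G, Pool.Agent.H911.KE.unc_curves hAz hcur G,
      Pool.Agent.H911.KE.unc_sab hAz (fun q hq => hq.1) hcur G⟩,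
      fun L' _ _ w y hw hy hyz => ?_⟩
    obtain ⟨p, hp, hyp⟩ := hyz
    have hAy : A ∈ Eqs y := ⟨hA, hy.mem ()⟩
    have hgt := (hsub L' w y hw hy).resolve_right fun h => hyp (h p hp)
    have h1 := Pool.Agent.H911.KE.unc_form_special hAy hsub hp
    have h2 := Pool.Agent.H911.KE.unc_form_discs hAy hdis hp
    have h3 := Pool.Agent.H911.KE.unc_form_curves hAy hcur hp
    have h4 := Pool.Agent.H911.KE.unc_form_sab hAy (fun q hq => hq.1) hA hcur hp
    exact ⟨hgt, p, hp.1, hyp, ⟨h1, h2, h3, h4⟩, fun T _ _ => ⟨Pool.Agent.N254.SQ.ce_general hgt _,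
      Pool.Agent.H911.KE.q_special h1, Pool.Agent.H911.KE.q_discs (fun q hq => hq.1) h2,
      Pool.Agent.H911.KE.q_curves h3⟩⟩
  have hE₁ : ∀ e, ∃ D ∈ ({δ₁ e} : Set ℕ), D₁ e ≤ D := fun e => ⟨δ₁ e, rfl, hδ₁ e⟩
  have hE₂ : ∀ e, ∃ D ∈ ({δ₂ e} : Set ℕ), D₂ e ≤ D := fun e => ⟨δ₂ e, rfl, hδ₂ e⟩
  refine ⟨?_, ?_, ?_⟩
  · -- (A)
    tfae_have 1 → 2 := by
      intro h A hA hout
      have h5 : ∀ (L : Type) [Field L] [Algebra ℂ L] (w : ℕ) (y : Fin (N + 1) → L),
          1 ≤ w → w ≤ m → Pool.Agent.N254.SQ.Gen L w y →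
          Pool.Agent.H911.GD.Cond4 {1} L w y ∧ (LogGeneral {1} L w y ↔ ∃ G, IsForm G ∧
            aeval y G ≠ 0 ∧ Pool.Agent.H911.GD.SabQ (Eqs y) {1} G) := fun L _ _ w y hw hwk hy =>
        (five_cond hy.ne).1 (h _ L w y hw hwk
          ⟨hy.ne, fun p => absurd p.2 (Set.notMem_empty _), hy.gen, hy.dim⟩)
      exact (five_iff hA).2 ⟨four_of (to_out hA hout) Pool.Agent.H911.GD.one_form
          fun L _ _ w y hw hwk hy _ => (h5 L w y hw hwk hy).1,
        sab_of (to_out hA hout) fun L _ _ w y hw hwk hy _ => (h5 L w y hw hwk hy).2⟩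
    tfae_have 2 → 3 := fun h e Q hQ hout => h _ (hform hQ) hout
    tfae_have 3 → 1 := by
      intro h n L _ _ w y hw hwm hy
      have hgen : Pool.Agent.N254.SQ.Gen L w y := ⟨hy.ne, hy.gen, hy.dim⟩
      refine (five_cond hy.ne).2 ⟨?_, ?_⟩
      · exact Pool.Agent.H911.KE.four_backward (T := fun _ => {1})
          (fun _ => Pool.Agent.H911.GD.one_form)
          (Pool.Agent.H911.KD.models_one (N := N) (m := m) (k := k) (by omega) (by omega)) H₁ hE₁
          (fun e D Q hDE _ hQ hout => by
            obtain rfl : D = δ₁ e := hDE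
            exact ((five_iff (hform hQ)).1 (h e Q hQ (outside_of hout))).1)
          hw hwm hgen (Pool.Agent.H911.GD.notIn_one y)
      · obtain ⟨A, hA⟩ := Pool.Agent.H911.GD.mdl_proj hgen
        exact Pool.Agent.H911.KE.final_one Pool.Agent.H911.GD.typ_sab H₁ hE₁
          Pool.Agent.H911.GD.one_form
          (fun e D Q hDE _ hQ hout => by
            obtain rfl : D = δ₁ e := hDE
            exact ((five_iff (hform hQ)).1 (h e Q hQ (outside_of hout))).2)
          hw hwm hgen Pool.Agent.H911.GD.one_form (Pool.Agent.H911.GD.notIn_one y)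
          (show w < w + 1 by omega) (by omega) (by omega) hA (Pool.Agent.H911.GD.compat_one y _)
          fun z R K hPr => Pool.Agent.H911.GD.sab_iff hPr
    tfae_finish
  · -- (B)
    tfae_have 1 → 2 := by
      intro h A hA hout
      exact four_of (to_out hA hout) (hX _)
        fun L _ _ w y hw hwk hy hyT => tfae_iff.1 (h _ {X 0} rfl L w y hw hwk
          ⟨hy.ne, fun p => absurd p.2 (Set.notMem_empty _), hy.gen, hy.dim⟩ hyT)
    tfae_have 2 → 3 := fun h e Q hQ hout => h _ (hform hQ) hout
    tfae_have 3 → 1 := by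
      intro h n T hT L _ _ w y hw hwm hy hyT
      have hT' : T = {X 0} := hT
      subst hT'
      exact tfae_iff.2 (Pool.Agent.H911.KE.four_backward (T := fun _ => {X 0})
        hX (Pool.Agent.H911.KD.models_affine (N := N) (m := m) (k := k) (by omega) (by omega))
        H₁ hE₁ (fun e D Q hDE _ hQ hout => by
          obtain rfl : D = δ₁ e := hDE
          exact h e Q hQ (outside_of hout)) hw hwm
        ⟨hy.ne, hy.gen, hy.dim⟩ hyT)
    tfae_finish
  · -- (C)
    tfae_have 1 → 2 := by
      intro h A hA hout T hT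
      exact four_of (to_out hA hout) hT
        fun L _ _ w y hw hwk hy hyT => tfae_iff.1 (h _ T hT L w y hw hwk
          ⟨hy.ne, fun p => absurd p.2 (Set.notMem_empty _), hy.gen, hy.dim⟩ hyT)
    tfae_have 2 → 3 := by
      intro h e Q hQ hout
      refine h _ (hform hQ) hout _ ?_
      rintro _ ⟨i, -, rfl⟩
      exact ⟨1, isHomogeneous_X ℂ _⟩
    tfae_have 3 → 1 := by
      intro h n T hT L _ _ w y hw hwm hy hyT
      refine tfae_iff.2 (Pool.Agent.H911.KE.four_quasi (show 2 * m + 1 ≤ M by omega)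
        (show 3 * m + 1 ≤ M + k by omega) H₂ hE₂ (fun e D Q hDE _ hQ hout => ?_) hw hwm
        ⟨hy.ne, hy.gen, hy.dim⟩ hT hyT)
      obtain rfl : D = δ₂ e := hDE
      rw [Pool.Agent.H911.GD.lin_eq]
      exact h e Q hQ (outside_of hout)
    tfae_finish

end Pool.Agent.Results.MP_160ed4_ag.SmallSingularLocus
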